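import Mathlib

/-!
# Heights, absolute values and counting functions of rational numbers
-/

set_option autoImplicit false

namespace Pool.Agent.H556.LG

open MvPolynomial

/-- the logarithm of the prime-to-`S` part of the natural number `m ≥ 1` -/
noncomputable def cf (S : Finset ℕ) (m : ℕ) : ℝ :=
  Real.log m - ∑ p ∈ S, (padicValNat p m : ℝ) * Real.log p

/-- the logarithmic height of a rational number -/
noncomputable def ht (x : ℚ) : ℝ := Real.log (max x.num.natAbs x.den : ℕ)

/-- the absolute values of `ℚ`: `none` is the real place, `some p` the place of the prime `p` -/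
noncomputable def av : Option ℕ → ℚ → ℝ
  | none, x => |(x : ℝ)|
  | some p, x => ((padicNorm p x : ℚ) : ℝ)

/-- the value of `R ∈ ℤ[T_1, …, T_n][X]` at `(T, z)` -/
noncomputable def evP {n : ℕ} {G : Type*} [CommRing G] (T : Fin n → G) (z : G)
    (R : Polynomial (MvPolynomial (Fin n) ℤ)) : G :=
  Polynomial.eval₂ (eval₂Hom (Int.castRingHom G) T) z R

end Pool.Agent.H556.LG
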