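import Mathlib
import Pool.Agent.H556.CP.Span

/-!
# Bases of spaces of functions on the variety `z z' = P(T)`
-/

set_option autoImplicit false

namespace Pool.Agent.H556.LG

open Pool.Agent.H556.CP MvPolynomial

variable {A : Type*} [CommRing A] [Algebra ℚ A] {n : ℕ}

/-- the monomials -/
def mT (T : Fin n → A) (ω : Fin n → ℕ) : A := ∏ i, T i ^ ω i

lemma mT_add (T : Fin n → A) (ω ω' : Fin n → ℕ) : mT T (ω + ω') = mT T ω * mT T ω' := by
  unfold mT
  rw [← Finset.prod_mul_distrib]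
  exact Finset.prod_congr rfl fun i _ => pow_add _ _ _

/-- the span of the products `T ^ ω yy k`, `ω ≤ M` and `K k` -/
def W (M a : ℕ) (K : ℕ → Prop) (T : Fin n → A) (z z' : A) : Submodule ℚ A :=
  Submodule.span ℚ {x | ∃ ω : Fin n → ℕ, (∀ i, ω i ≤ M) ∧ ∃ k, K k ∧ x = mT T ω * yy a z z' k}

lemma W_mono {M a : ℕ} {K K' : ℕ → Prop} {T : Fin n → A} {z z' : A} (h : ∀ k, K k → K' k) :
    W M a K T z z' ≤ W M a K' T z z' := by
  apply Submodule.span_mono
  rintro x ⟨ω, hω, k, hk, rfl⟩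
  exact ⟨ω, hω, k, h k hk, rfl⟩

/-- multiplication by a polynomial in `T` -/
lemma mem_poly {M a E : ℕ} {K : ℕ → Prop} {T : Fin n → A} {z z' : A}
    (Q : MvPolynomial (Fin n) ℤ) (hQ : ∀ i, Q.degreeOf i ≤ E) {ω : Fin n → ℕ}
    (hω : ∀ i, ω i + E ≤ M) {k : ℕ} (hk : K k) :
    mT T ω * aeval T Q * yy a z z' k ∈ W M a K T z z' := by
  classical
  have h1 : aeval T Q = ∑ s ∈ Q.support, (Q.coeff s : ℤ) • mT T (fun i => s i) := by
    conv_lhs => rw [Q.as_sum]
    rw [map_sum]
    refine Finset.sum_congr rfl fun s _ => ?_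
    rw [aeval_monomial, Finsupp.prod_fintype _ _ (fun i => pow_zero _)]
    rw [zsmul_eq_mul]
    rfl
  rw [h1, Finset.mul_sum, Finset.sum_mul]
  refine Submodule.sum_mem _ fun s hs => ?_
  have h2 : mT T ω * ((Q.coeff s : ℤ) • mT T (fun i => s i)) * yy a z z' k =
      (Q.coeff s : ℤ) • (mT T (ω + fun i => s i) * yy a z z' k) := by
    rw [mT_add]
    simp only [zsmul_eq_mul]
    ring
  rw [h2]
  have h5 : mT T (ω + fun i => s i) * yy a z z' k ∈ W M a K T z z' := by
    refine Submodule.subset_span ⟨_, ?_, k, hk, rfl⟩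
    intro i
    have h3 : s i ≤ Q.degreeOf i := by
      rw [degreeOf_eq_sup]
      exact Finset.le_sup (f := fun m : Fin n →₀ ℕ => m i) hs
    have := hω i
    have := hQ i
    simp only [Pi.add_apply]
    omega
  exact zsmul_mem h5 _

lemma degreeOf_pow_le' {Q : MvPolynomial (Fin n) ℤ} {D : ℕ} (hQ : ∀ i, Q.degreeOf i ≤ D) (m : ℕ)
    (i : Fin n) : (Q ^ m).degreeOf i ≤ D * m := by
  have h1 := degreeOf_pow_le i Q m
  calc _ ≤ m * Q.degreeOf i := h1
    _ ≤ m * D := Nat.mul_le_mul_left _ (hQ i)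
    _ = D * m := Nat.mul_comm _ _

/-- the products `z' ^ m z ^ l` -/
lemma red {M a D : ℕ} {T : Fin n → A} {z z' : A} {P : MvPolynomial (Fin n) ℤ}
    (hP : ∀ i, P.degreeOf i ≤ D) (h : z * z' = aeval T P) {ω : Fin n → ℕ} {m l : ℕ} (hm : m ≤ a)
    (hω : ∀ i, ω i + D * a ≤ M) :
    mT T ω * z' ^ m * z ^ l ∈ W M a (fun k => k + m = a + l) T z z' := by
  rcases le_total l m with hlm | hlm
  · have h1 : mT T ω * z' ^ m * z ^ l = mT T ω * aeval T (P ^ l) * yy a z z' (a + l - m) := by
      rw [map_pow, ← h, mul_pow]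
      unfold yy
      by_cases h2 : l = m
      · subst h2
        rw [Nat.add_sub_cancel, if_pos le_rfl, Nat.sub_self, pow_zero]
        ring
      · rw [if_neg (by omega), show a - (a + l - m) = m - l by omega]
        obtain ⟨d, rfl⟩ := Nat.exists_eq_add_of_le hlm
        rw [Nat.add_sub_cancel_left, pow_add]
        ring
    rw [h1]
    refine mem_poly (E := D * a) _ (fun i => (degreeOf_pow_le' hP l i).trans
      (Nat.mul_le_mul_left _ (hlm.trans hm))) hω ?_
    omega
  · have h1 : mT T ω * z' ^ m * z ^ l = mT T ω * aeval T (P ^ m) * yy a z z' (a + l - m) := by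
      rw [map_pow, ← h, mul_pow]
      unfold yy
      rw [if_pos (by omega), show a + l - m - a = l - m by omega]
      obtain ⟨d, rfl⟩ := Nat.exists_eq_add_of_le hlm
      rw [Nat.add_sub_cancel_left, pow_add]
      ring
    rw [h1]
    refine mem_poly (E := D * a) _ (fun i => (degreeOf_pow_le' hP m i).trans
      (Nat.mul_le_mul_left _ hm)) hω ?_
    omega

/-- the family adapted to `z = c` -/
def gg (N M a B : ℕ) (T : Fin n → A) (z z' : A) (c : ℚ) (ω : Fin n → ℕ) (k : ℕ) : A :=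
  if ∀ i, ω i + N ≤ M then mT T ω * z' ^ (k - B) * (z - algebraMap ℚ A c) ^ k
  else mT T ω * yy a z z' k

lemma sub_pow_sum (z : A) (c : ℚ) (k : ℕ) : (z - algebraMap ℚ A c) ^ k =
    ∑ l ∈ Finset.range (k + 1), ((-c) ^ (k - l) * (k.choose l : ℚ)) • z ^ l := by
  rw [sub_eq_add_neg, add_pow]
  refine Finset.sum_congr rfl fun l _ => ?_
  rw [Algebra.smul_def, map_mul, map_pow, map_neg, map_natCast]
  ring

lemma gg_mem {N M a B D : ℕ} {T : Fin n → A} {z z' : A} {P : MvPolynomial (Fin n) ℤ}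
    (hP : ∀ i, P.degreeOf i ≤ D) (h : z * z' = aeval T P) (hN : D * a ≤ N) (c : ℚ)
    {ω : Fin n → ℕ} (hω : ∀ i, ω i ≤ M) {k : ℕ} (hk : k ≤ a + B) :
    gg N M a B T z z' c ω k ∈ W M a (fun k => k ≤ a + B) T z z' := by
  unfold gg
  split_ifs with h1
  · rw [sub_pow_sum, Finset.mul_sum]
    refine Submodule.sum_mem _ fun l hl => ?_
    rw [mul_smul_comm]
    refine Submodule.smul_mem _ _ (W_mono ?_ (red hP h (m := k - B) (l := l) (by omega)
      (fun i => by have := h1 i; omega)))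
    intro j hj
    have := Finset.mem_range.1 hl
    omega
  · exact Submodule.subset_span ⟨ω, hω, k, hk, rfl⟩

/-- the span of the adapted family -/
def Gs (N M a B : ℕ) (T : Fin n → A) (z z' : A) (c : ℚ) : Submodule ℚ A :=
  Submodule.span ℚ {x | ∃ ω : Fin n → ℕ, (∀ i, ω i ≤ M) ∧ ∃ k, k ≤ a + B ∧
    x = gg N M a B T z z' c ω k}

lemma zpow_mem {N M a B : ℕ} {T : Fin n → A} {z z' : A} (c : ℚ)
    {ω : Fin n → ℕ} (hω : ∀ i, ω i ≤ M) {k : ℕ} (hk : k ≤ B) :
    mT T ω * z ^ k ∈ Gs N M a B T z z' c := by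
  by_cases h1 : ∀ i, ω i + N ≤ M
  · have h2 : z ^ k = ∑ l ∈ Finset.range (k + 1), (c ^ (k - l) * (k.choose l : ℚ)) •
        (z - algebraMap ℚ A c) ^ l := by
      conv_lhs => rw [show z = (z - algebraMap ℚ A c) + algebraMap ℚ A c by ring, add_pow]
      refine Finset.sum_congr rfl fun l _ => ?_
      rw [Algebra.smul_def, map_mul, map_pow, map_natCast]
      ring
    rw [h2, Finset.mul_sum]
    refine Submodule.sum_mem _ fun l hl => ?_
    rw [mul_smul_comm]
    have hl' := Finset.mem_range.1 hl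
    refine Submodule.smul_mem _ _ (Submodule.subset_span ⟨ω, hω, l, by omega, ?_⟩)
    unfold gg
    rw [if_pos h1, show l - B = 0 by omega, pow_zero, mul_one]
  · refine Submodule.subset_span ⟨ω, hω, a + k, by omega, ?_⟩
    unfold gg yy
    rw [if_neg h1, if_pos (by omega), Nat.add_sub_cancel_left]

lemma z'pow_mem {N M a B D : ℕ} {T : Fin n → A} {z z' : A} {P : MvPolynomial (Fin n) ℤ}
    (hP : ∀ i, P.degreeOf i ≤ D) (h : z * z' = aeval T P) (hN : D * a ≤ N) {c : ℚ} (hc : c ≠ 0)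
    (m : ℕ) : m ≤ a → ∀ ω : Fin n → ℕ, (∀ i, ω i ≤ M) →
    mT T ω * z' ^ m ∈ Gs N M a B T z z' c := by
  induction m using Nat.strong_induction_on with
  | _ m ih =>
    intro hm ω hω
    rcases Nat.eq_zero_or_pos m with rfl | hm0
    · have := zpow_mem (N := N) (a := a) (B := B) (T := T) (z := z) (z' := z') c hω (Nat.zero_le B)
      simpa using this
    by_cases h1 : ∀ i, ω i + N ≤ M
    · have h2 : gg N M a B T z z' c ω (B + m) ∈ Gs N M a B T z z' c :=
        Submodule.subset_span ⟨ω, hω, B + m, by omega, rfl⟩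
      have h3 : gg N M a B T z z' c ω (B + m) = ∑ l ∈ Finset.range (B + m + 1),
          ((-c) ^ (B + m - l) * ((B + m).choose l : ℚ)) • (mT T ω * z' ^ m * z ^ l) := by
        unfold gg
        rw [if_pos h1, Nat.add_sub_cancel_left, sub_pow_sum, Finset.mul_sum]
        refine Finset.sum_congr rfl fun l _ => ?_
        rw [mul_smul_comm]
      rw [Finset.sum_range_succ'] at h3
      simp only [pow_zero, mul_one, Nat.sub_zero, Nat.choose_zero_right, Nat.cast_one] at h3
      have h4 : ∑ l ∈ Finset.range (B + m), ((-c) ^ (B + m - (l + 1)) *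
          ((B + m).choose (l + 1) : ℚ)) • (mT T ω * z' ^ m * z ^ (l + 1)) ∈
          Gs N M a B T z z' c := by
        refine Submodule.sum_mem _ fun l hl => Submodule.smul_mem _ _ ?_
        have hl' := Finset.mem_range.1 hl
        have h5 := red (M := M) (ω := ω) hP h (m := m) (l := l + 1) hm (fun i => by
          have := h1 i; omega)
        refine (Submodule.span_le.2 ?_) h5
        rintro x ⟨ω', hω', k, hk, rfl⟩
        unfold yy
        split_ifs with h6
        · exact zpow_mem c hω' (by omega)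
        · exact ih (a - k) (by omega) (by omega) ω' hω'
      have h7 : ((-c) ^ (B + m)) • (mT T ω * z' ^ m) ∈ Gs N M a B T z z' c := by
        have h8 : ((-c) ^ (B + m)) • (mT T ω * z' ^ m) = gg N M a B T z z' c ω (B + m) -
            ∑ l ∈ Finset.range (B + m), ((-c) ^ (B + m - (l + 1)) *
            ((B + m).choose (l + 1) : ℚ)) • (mT T ω * z' ^ m * z ^ (l + 1)) := by
          rw [h3, add_sub_cancel_left]
        rw [h8]
        exact Submodule.sub_mem _ h2 h4
      have h9 : (-c) ^ (B + m) ≠ 0 := pow_ne_zero _ (neg_ne_zero.2 hc)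
      have h10 := Submodule.smul_mem _ ((-c) ^ (B + m))⁻¹ h7
      rwa [smul_smul, inv_mul_cancel₀ h9, one_smul] at h10
    · refine Submodule.subset_span ⟨ω, hω, a - m, by omega, ?_⟩
      unfold gg yy
      rw [if_neg h1, if_neg (by omega)]
      congr 2
      omega

theorem W_le {N M a B D : ℕ} {T : Fin n → A} {z z' : A} {P : MvPolynomial (Fin n) ℤ}
    (hP : ∀ i, P.degreeOf i ≤ D) (h : z * z' = aeval T P) (hN : D * a ≤ N) {c : ℚ} (hc : c ≠ 0) :
    W M a (fun k => k ≤ a + B) T z z' ≤ Gs N M a B T z z' c := by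
  unfold W
  rw [Submodule.span_le]
  rintro x ⟨ω, hω, k, hk, rfl⟩
  unfold yy
  split_ifs with h1
  · exact zpow_mem c hω (by omega)
  · exact z'pow_mem hP h hN hc (a - k) (by omega) ω hω

theorem Gs_eq {N M a B D : ℕ} {T : Fin n → A} {z z' : A} {P : MvPolynomial (Fin n) ℤ}
    (hP : ∀ i, P.degreeOf i ≤ D) (h : z * z' = aeval T P) (hN : D * a ≤ N) {c : ℚ} (hc : c ≠ 0) :
    Gs N M a B T z z' c = W M a (fun k => k ≤ a + B) T z z' := by
  apply le_antisymm _ (W_le hP h hN hc)
  unfold Gs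
  rw [Submodule.span_le]
  rintro x ⟨ω, hω, k, hk, rfl⟩
  exact gg_mem hP h hN c hω hk

/-- exchanging the roles of `z` and `z'` -/
theorem W_swap {M a B : ℕ} {T : Fin n → A} {z z' : A} :
    W M B (fun k => k ≤ B + a) T z' z = W M a (fun k => k ≤ a + B) T z z' := by
  have key : ∀ (a B : ℕ) (z z' : A), W M B (fun k => k ≤ B + a) T z' z ≤
      W M a (fun k => k ≤ a + B) T z z' := by
    intro a B z z'
    unfold W
    rw [Submodule.span_le]
    rintro x ⟨ω, hω, k, hk, rfl⟩
    refine Submodule.subset_span ⟨ω, hω, a + B - k, by omega, ?_⟩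
    congr 1
    unfold yy
    by_cases h1 : B ≤ k
    · rw [if_pos h1]
      by_cases h2 : k = B
      · subst h2
        rw [if_pos (by omega)]
        simp
      · rw [if_neg (by omega)]
        congr 1
        omega
    · rw [if_neg h1, if_pos (by omega)]
      congr 1
      omega
  exact le_antisymm (key a B z z') (key B a z' z)

end Pool.Agent.H556.LG
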