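import Mathlib
import Pool.Agent.H556.LG.Span
import Pool.Agent.H556.LG.Defs
import Pool.Agent.H556.DV.Trans

/-!
# Approximation at several places on the variety `z z' = P(T)`
-/

set_option autoImplicit false

namespace Pool.Agent.H556.LG

open Filter Topology Pool.Agent.TH932.Abs Pool.Agent.TH932.Germs Pool.Agent.TH932.Chi
open Pool.Agent.TH796.AL Pool.Agent.H556.CP MvPolynomial

section abstract_field

variable {G : Type*} [Field G] [CharZero G] {n : ℕ}

/-- the index set -/
abbrev II (n M a B : ℕ) : Type := (Fin n → Fin (M + 1)) × Fin (a + B + 1)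

/-- the exponents -/
def ex {n M : ℕ} (x : Fin n → Fin (M + 1)) : Fin n → ℕ := fun i => (x i : ℕ)

/-- the products -/
def xx (n M a B : ℕ) (T : Fin n → G) (z z' : G) (x : II n M a B) : G :=
  mT T (ex x.1) * yy a z z' x.2

lemma span_range {M a B : ℕ} (f : (Fin n → ℕ) → ℕ → G) :
    Submodule.span ℚ (Set.range fun x : II n M a B => f (ex x.1) x.2) =
      Submodule.span ℚ {x | ∃ ω : Fin n → ℕ, (∀ i, ω i ≤ M) ∧ ∃ k, k ≤ a + B ∧ x = f ω k} := by
  congr 1
  ext x
  constructor
  · rintro ⟨⟨ω, k⟩, rfl⟩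
    refine ⟨ex ω, fun i => ?_, k, by omega, rfl⟩
    have := (ω i).2
    unfold ex
    omega
  · rintro ⟨ω, hω, k, hk, rfl⟩
    refine ⟨(fun i => ⟨ω i, by have := hω i; omega⟩, ⟨k, by omega⟩), rfl⟩

lemma span_xx {M a B : ℕ} (T : Fin n → G) (z z' : G) :
    Submodule.span ℚ (Set.range (xx n M a B T z z')) =
      W M a (fun k => k ≤ a + B) T z z' := by
  have h1 := span_range (M := M) (a := a) (B := B)
    (fun (ω : Fin n → ℕ) (k : ℕ) => mT T ω * yy a z z' k)
  exact h1

lemma evP_monomial {G : Type*} [CommRing G] (T : Fin n → G) (z : G) (k : ℕ)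
    (Q : MvPolynomial (Fin n) ℤ) :
    evP T z (Polynomial.monomial k Q) = aeval T Q * z ^ k := by
  unfold evP
  rw [Polynomial.eval₂_monomial]
  rfl

lemma evP_sum {G : Type*} [CommRing G] (T : Fin n → G) (z : G) {ι : Type*} (s : Finset ι)
    (f : ι → Polynomial (MvPolynomial (Fin n) ℤ)) :
    evP T z (∑ i ∈ s, f i) = ∑ i ∈ s, evP T z (f i) := by
  unfold evP
  rw [Polynomial.eval₂_finset_sum]

/-- the polynomial of a relation -/
noncomputable def RR (P : MvPolynomial (Fin n) ℤ) {M a B : ℕ} (c : II n M a B → ℤ) :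
    Polynomial (MvPolynomial (Fin n) ℤ) :=
  ∑ x : II n M a B, Polynomial.monomial (x.2 : ℕ)
    (monomial (Finsupp.equivFunOnFinite.symm (ex x.1)) (c x) * P ^ (a - (x.2 : ℕ)))

lemma aeval_mon (T : Fin n → G) (ω : Fin n → ℕ) (c : ℤ) :
    aeval T (monomial (Finsupp.equivFunOnFinite.symm ω) c) = (c : G) * mT T ω := by
  rw [aeval_monomial, Finsupp.prod_fintype _ _ (fun i => pow_zero _)]
  simp [mT]

lemma evP_RR {T : Fin n → G} {z z' : G} {P : MvPolynomial (Fin n) ℤ}
    (h : z * z' = aeval T P) {M a B : ℕ} (c : II n M a B → ℤ) :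
    evP T z (RR P c) = z ^ a * ∑ x, (c x : G) * xx n M a B T z z' x := by
  unfold RR
  rw [evP_sum, Finset.mul_sum]
  refine Finset.sum_congr rfl fun x _ => ?_
  rw [evP_monomial, map_mul, aeval_mon, map_pow, ← h]
  unfold xx yy
  split_ifs with h3
  · obtain ⟨d, hd⟩ := Nat.exists_eq_add_of_le h3
    rw [hd, Nat.add_sub_cancel_left, show a - (a + d) = 0 by omega]
    ring
  · have : z ^ a = z ^ (x.2 : ℕ) * z ^ (a - (x.2 : ℕ)) := by
      rw [← pow_add]; congr 1; omega
    rw [this]
    ring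

lemma RR_zero {P : MvPolynomial (Fin n) ℤ} (hP0 : P ≠ 0) {M a B : ℕ} (c : II n M a B → ℤ)
    (h0 : RR P c = 0) (x : II n M a B) : c x = 0 := by
  classical
  have h2 : (RR P c).coeff (x.2 : ℕ) = 0 := by rw [h0, Polynomial.coeff_zero]
  unfold RR at h2
  rw [Polynomial.finset_sum_coeff] at h2
  have h3 : (∑ ω : Fin n → Fin (M + 1), monomial (Finsupp.equivFunOnFinite.symm (ex ω))
      (c (ω, x.2))) * P ^ (a - (x.2 : ℕ)) = 0 := by
    rw [← h2, Finset.sum_mul, Fintype.sum_prod_type]
    refine Finset.sum_congr rfl fun ω _ => ?_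
    rw [Finset.sum_eq_single x.2]
    · rw [Polynomial.coeff_monomial, if_pos rfl]
    · intro j _ hj
      rw [Polynomial.coeff_monomial, if_neg (fun h => hj (Fin.ext h))]
    · intro h
      exact absurd (Finset.mem_univ _) h
  have h4 := (mul_eq_zero.1 h3).resolve_right (pow_ne_zero _ hP0)
  have h5 : coeff (Finsupp.equivFunOnFinite.symm (ex x.1)) (∑ ω : Fin n → Fin (M + 1),
      monomial (Finsupp.equivFunOnFinite.symm (ex ω)) (c (ω, x.2))) = 0 := by
    rw [h4, coeff_zero]
  rw [coeff_sum, Finset.sum_eq_single x.1] at h5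
  · rw [coeff_monomial, if_pos rfl] at h5
    exact h5
  · intro ω _ hω
    rw [coeff_monomial, if_neg]
    intro h
    apply hω
    have h6 := Finsupp.equivFunOnFinite.symm.injective h
    funext i
    exact Fin.ext (congrFun h6 i)
  · intro h
    exact absurd (Finset.mem_univ _) h

/-- **independence** -/
theorem indepM {T : Fin n → G} {z z' : G} {P : MvPolynomial (Fin n) ℤ} (hP0 : P ≠ 0)
    (h : z * z' = aeval T P)
    (hno : ∀ R : Polynomial (MvPolynomial (Fin n) ℤ), R ≠ 0 → evP T z R ≠ 0) (M a B : ℕ)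
    (c : II n M a B → ℤ) (hc : ∑ x, (c x : G) * xx n M a B T z z' x = 0) (x : II n M a B) :
    c x = 0 := by
  refine RR_zero hP0 c ?_ x
  by_contra hne
  apply hno _ hne
  rw [evP_RR h, hc, mul_zero]

/-- families with the same span -/
lemma fam {ι : Type*} [Fintype ι] {x g f : ι → G} (hx : LinearIndependent ℚ x)
    (hg : Submodule.span ℚ (Set.range g) = Submodule.span ℚ (Set.range x))
    (hf : Submodule.span ℚ (Set.range f) = Submodule.span ℚ (Set.range x)) :
    (∀ c : ι → ℤ, ∑ i, (c i : G) * g i = 0 → ∀ i, c i = 0) ∧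
    (∀ i, ∃ N : ℤ, N ≠ 0 ∧ ∃ c : ι → ℤ, (N : G) * g i = ∑ j, (c j : G) * f j) := by
  classical
  have hindg : LinearIndependent ℚ g := by
    rw [linearIndependent_iff_card_eq_finrank_span] at hx ⊢
    rw [hx]
    unfold Set.finrank
    rw [hg]
  refine ⟨fun c hc => DV.int_of_lin g hindg c hc, fun i => DV.int_rel f ?_⟩
  rw [hf, ← hg]
  exact Submodule.subset_span ⟨i, rfl⟩

/-- the family adapted to `z = c`, over a field -/
def gf (N M a B : ℕ) (T : Fin n → G) (z z' : G) (c : G) (ω : Fin n → ℕ) (k : ℕ) : G :=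
  if ∀ i, ω i + N ≤ M then mT T ω * z' ^ (k - B) * (z - c) ^ k
  else mT T ω * yy a z z' k

/-- the families at the places -/
def zz {V : Type*} (N M a B : ℕ) (T : Fin n → G) (z z' : G) (pos ty : V → Bool) (c : V → G)
    (v : V) (x : II n M a B) : G :=
  if pos v = true then (if ty v = true then gf N M a B T z z' (c v) (ex x.1) x.2 else
    gf N M B a T z' z (c v) (ex x.1) x.2) else xx n M a B T z z' x

/-- **the families** -/
theorem families {V : Type*} {T : Fin n → G} {z z' : G}
    {P : MvPolynomial (Fin n) ℤ} (hP0 : P ≠ 0) (h : z * z' = aeval T P)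
    (hno : ∀ R : Polynomial (MvPolynomial (Fin n) ℤ), R ≠ 0 → evP T z R ≠ 0)
    {D N M a B : ℕ} (hD : ∀ i, P.degreeOf i ≤ D) (hNa : D * a ≤ N) (hNB : D * B ≤ N)
    (pos ty : V → Bool) (c : V → G)
    (hc : ∀ v, ∃ p q : ℤ, p ≠ 0 ∧ q ≠ 0 ∧ (q : G) * c v = p) :
    (∀ v, ∀ k : II n M a B → ℤ, ∑ i, (k i : G) * zz N M a B T z z' pos ty c v i = 0 →
      ∀ i, k i = 0) ∧
    (∀ v w i, ∃ N' : ℤ, N' ≠ 0 ∧ ∃ k : II n M a B → ℤ,
      (N' : G) * zz N M a B T z z' pos ty c v i =
        ∑ j, (k j : G) * zz N M a B T z z' pos ty c w j) := by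
  classical
  have hind := indepM hP0 h hno M a B
  have hlin : LinearIndependent ℚ (xx n M a B T z z') := DV.lin_of_int _ hind
  have h' : z' * z = aeval T P := by rw [mul_comm, h]
  choose p q hp hq hpq using hc
  set r : V → ℚ := fun v => (p v : ℚ) / q v with hr
  have hr0 : ∀ v, r v ≠ 0 := fun v => div_ne_zero (by exact_mod_cast hp v) (by exact_mod_cast hq v)
  have hcr : ∀ v, c v = algebraMap ℚ G (r v) := by
    intro v
    have h1 : (q v : G) ≠ 0 := by exact_mod_cast hq v
    rw [hr]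
    simp only [map_div₀, map_intCast]
    rw [eq_div_iff h1, mul_comm]
    exact hpq v
  have hspan : ∀ v, Submodule.span ℚ (Set.range (zz N M a B T z z' pos ty c v)) =
      Submodule.span ℚ (Set.range (xx n M a B T z z')) := by
    intro v
    rw [span_xx]
    by_cases hv : pos v = true
    · by_cases hb : ty v = true
      · have e1 : zz N M a B T z z' pos ty c v = fun x : II n M a B =>
            (fun (ω : Fin n → ℕ) (k : ℕ) => gg N M a B T z z' (r v) ω k) (ex x.1) x.2 := by
          funext x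
          unfold zz
          rw [if_pos hv, if_pos hb]
          unfold gf gg
          rw [hcr]
        rw [e1, span_range]
        exact Gs_eq hD h hNa (hr0 v)
      · have e1 : zz N M a B T z z' pos ty c v = fun x : II n M a B =>
            (fun (ω : Fin n → ℕ) (k : ℕ) => gg N M B a T z' z (r v) ω k) (ex x.1) x.2 := by
          funext x
          unfold zz
          rw [if_pos hv, if_neg hb]
          unfold gf gg
          rw [hcr]
        rw [e1, span_range]
        have e2 := Gs_eq (M := M) hD h' hNB (hr0 v) (B := a)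
        rw [W_swap] at e2
        rw [← e2]
        unfold Gs
        congr 1
        ext x
        simp only [Set.mem_setOf_eq, Nat.add_comm a B]
    · have e1 : zz N M a B T z z' pos ty c v = xx n M a B T z z' := by
        funext x
        unfold zz
        rw [if_neg hv]
      rw [e1, span_xx]
  exact ⟨fun v => (fam hlin (hspan v) (hspan v)).1, fun v w => (fam hlin (hspan v) (hspan w)).2⟩

end abstract_field

lemma sum_w (a B : ℕ) (α β : ℝ) :
    ∑ k ∈ Finset.range (a + B + 1), (if a ≤ k then ((k - a : ℕ) : ℝ) * α else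
      ((a - k : ℕ) : ℝ) * β) = (B * (B + 1) / 2 : ℝ) * α + (a * (a + 1) / 2 : ℝ) * β := by
  rw [show a + B + 1 = a + (B + 1) by ring, Finset.sum_range_add,
    Finset.sum_congr rfl (g := fun k => ((a - k : ℕ) : ℝ) * β) (fun i hi => by
      rw [if_neg (by have := Finset.mem_range.1 hi; omega)]),
    Finset.sum_congr (s₁ := Finset.range (B + 1)) rfl (g := fun k => (k : ℝ) * α) (fun i _ => by
      rw [if_pos (Nat.le_add_right a i), Nat.add_sub_cancel_left]), ← Finset.sum_mul,
    ← Finset.sum_mul, sum_id B]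
  have e3 : ∑ i ∈ Finset.range a, ((a - i : ℕ) : ℝ) = a * (a + 1) / 2 := by
    rw [← Finset.sum_range_reflect]
    rw [← sum_id a, Finset.sum_range_succ']
    rw [Nat.cast_zero, add_zero]
    refine Finset.sum_congr rfl fun i hi => ?_
    congr 1
    have := Finset.mem_range.1 hi
    omega
  rw [e3]
  ring

lemma sum_g (a B : ℕ) (θ κ : ℝ) :
    ∑ k ∈ Finset.range (a + B + 1), (-(((k - B : ℕ) : ℝ)) * θ + κ * k) =
      -((a * (a + 1) / 2 : ℝ) * θ) + κ * (((a + B : ℕ) : ℝ) * (((a + B : ℕ) : ℝ) + 1) / 2) := by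
  rw [Finset.sum_add_distrib, ← Finset.mul_sum, sum_id, ← Finset.sum_mul]
  congr 1
  have : ∑ k ∈ Finset.range (a + B + 1), -(((k - B : ℕ) : ℝ)) = -(a * (a + 1) / 2 : ℝ) := by
    rw [Finset.sum_neg_distrib, show a + B + 1 = B + (a + 1) by ring, Finset.sum_range_add,
      Finset.sum_eq_zero (fun i hi => by
        have := Finset.mem_range.1 hi
        rw [show i - B = 0 by omega, Nat.cast_zero]), zero_add]
    simp only [Nat.add_sub_cancel_left]
    rw [sum_id a]
  rw [this]
  ring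

lemma exists_M' {D Q : ℝ} (h : D < Q) (N n : ℕ) :
    ∃ M : ℕ, N ≤ M ∧ ((M : ℝ) + 1) ^ n * D < ((M + 1 - N : ℕ) : ℝ) ^ n * Q := by
  have h1 : Tendsto (fun M : ℕ => (1 - (N : ℝ) * ((M : ℝ) + 1)⁻¹) ^ n * Q) atTop
      (𝓝 ((1 - (N : ℝ) * 0) ^ n * Q)) := by
    refine Tendsto.mul_const _ (Tendsto.pow (Tendsto.const_sub _ (Tendsto.const_mul _ ?_)) _)
    exact tendsto_inv_atTop_zero.comp (tendsto_atTop_add_const_right _ _
      tendsto_natCast_atTop_atTop)
  have h2 : D < (1 - (N : ℝ) * 0) ^ n * Q := by simpa using h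
  obtain ⟨M, hM1, hM2⟩ := ((h1.eventually (lt_mem_nhds h2)).and (eventually_ge_atTop N)).exists
  refine ⟨M, hM2, ?_⟩
  have h3 : (0 : ℝ) < (M : ℝ) + 1 := by positivity
  have h4 : ((M + 1 - N : ℕ) : ℝ) = ((M : ℝ) + 1) * (1 - (N : ℝ) * ((M : ℝ) + 1)⁻¹) := by
    rw [Nat.cast_sub (by omega)]
    push_cast
    field_simp
  rw [h4, mul_pow, mul_assoc]
  exact mul_lt_mul_of_pos_left hM1 (by positivity)

end Pool.Agent.H556.LG
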