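import Mathlib
import Pool.Agent.H556.LG.Trans

/-!
# The inequality for germs of points of the variety `z z' = P(T)`
-/

set_option autoImplicit false

namespace Pool.Agent.H556.LG

open Filter Topology Pool.Agent.TH932.Abs Pool.Agent.TH932.Germs Pool.Agent.TH932.Chi
open Pool.Agent.TH796.AL Pool.Agent.H556.CP MvPolynomial

variable {s n : ℕ} {B0 : Base s} {L : ℕ → ℝ}

lemma Sint_pow (hL : Tendsto L atTop atTop) {x : GG} (hx : Sint B0 L x) (k : ℕ) :
    Sint B0 L (x ^ k) := by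
  induction k with
  | zero => rw [pow_zero]; exact Sint.alg hL 1
  | succ k ih => rw [pow_succ]; exact Sint.mul hL ih hx

lemma Sint_prod (hL : Tendsto L atTop atTop) {ι : Type*} (t : Finset ι) (f : ι → GG)
    (hf : ∀ i ∈ t, Sint B0 L (f i)) : Sint B0 L (∏ i ∈ t, f i) := by
  classical
  induction t using Finset.induction_on with
  | empty => rw [Finset.prod_empty]; exact Sint.alg hL 1
  | insert i t hi ih =>
    rw [Finset.prod_insert hi]
    exact Sint.mul hL (hf i (Finset.mem_insert_self _ _))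
      (ih fun j hj => hf j (Finset.mem_insert_of_mem hj))

lemma Sint_mT (hL : Tendsto L atTop atTop) {T : Fin n → GG} (hT : ∀ i, Sint B0 L (T i))
    (ω : Fin n → ℕ) : Sint B0 L (mT T ω) := Sint_prod hL _ _ fun i _ => Sint_pow hL (hT i) _

lemma Sv_mT (hL : Tendsto L atTop atTop) {T : Fin n → GG} {v : Option (Fin s)}
    {τ : Fin n → ℝ} (hT : ∀ i, T i ∈ Sv B0 L v (τ i)) (ω : Fin n → ℕ) :
    mT T ω ∈ Sv B0 L v (∑ i, (ω i : ℝ) * τ i) := by
  have hF := filt_v (B := B0) hL v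
  unfold mT
  have key : ∀ t : Finset (Fin n), ∏ i ∈ t, T i ^ ω i ∈ Sv B0 L v (∑ i ∈ t, (ω i : ℝ) * τ i) := by
    intro t
    induction t using Finset.induction_on with
    | empty =>
      rw [Finset.prod_empty, Finset.sum_empty]
      have := hF.alg_mem 1
      rwa [map_one] at this
    | insert i t hi ih =>
      rw [Finset.prod_insert hi, Finset.sum_insert hi]
      have h1 := hF.pow_mem (hT i) (ω i)
      rw [mul_comm] at h1
      exact hF.mul_mem h1 ih
  exact key Finset.univ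

/-- the weight of the products -/
noncomputable def wy (a : ℕ) (α β : ℝ) (k : ℕ) : ℝ :=
  if a ≤ k then ((k - a : ℕ) : ℝ) * α else ((a - k : ℕ) : ℝ) * β

lemma Sv_yy (hL : Tendsto L atTop atTop) {v : Option (Fin s)} {z z' : GG} {α β : ℝ}
    (hz : z ∈ Sv B0 L v α) (hz' : z' ∈ Sv B0 L v β) (a k : ℕ) :
    yy a z z' k ∈ Sv B0 L v (wy a α β k) := by
  have hF := filt_v (B := B0) hL v
  unfold yy wy
  split_ifs
  · have := hF.pow_mem hz (k - a)
    rwa [mul_comm] at this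
  · have := hF.pow_mem hz' (a - k)
    rwa [mul_comm] at this

lemma Sint_yy (hL : Tendsto L atTop atTop) {z z' : GG} (hz : Sint B0 L z) (hz' : Sint B0 L z')
    (a k : ℕ) : Sint B0 L (yy a z z' k) := by
  unfold yy
  split_ifs
  · exact Sint_pow hL hz _
  · exact Sint_pow hL hz' _

/-- the weight of the adapted family -/
noncomputable def wg (N M a B : ℕ) (τ : Fin n → ℝ) (ζ θ κ : ℝ) (ω : Fin n → ℕ) (k : ℕ) : ℝ :=
  if ∀ i, ω i + N ≤ M then (∑ i, (ω i : ℝ) * τ i) + (-(((k - B : ℕ) : ℝ)) * θ + κ * k)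
  else (∑ i, (ω i : ℝ) * τ i) + wy a (-ζ) (ζ - θ) k

lemma Sv_gg (hL : Tendsto L atTop atTop) {T : Fin n → GG} {z z' : GG} {v : Option (Fin s)}
    {τ : Fin n → ℝ} (hT : ∀ i, T i ∈ Sv B0 L v (τ i)) {ζ θ κ : ℝ} (hz : z ∈ Sv B0 L v (-ζ))
    (hz' : z' ∈ Sv B0 L v (ζ - θ)) (hζ : ζ = 0) {c : GG}
    (hc : z - c ∈ Sv B0 L v κ)
    (N M a B : ℕ) (ω : Fin n → ℕ) (k : ℕ) :
    gf N M a B T z z' c ω k ∈ Sv B0 L v (wg N M a B τ ζ θ κ ω k) := by
  have hF := filt_v (B := B0) hL v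
  unfold gf wg
  split_ifs
  · have h1 := hF.pow_mem hz' (k - B)
    have h2 := hF.pow_mem hc k
    have h3 := hF.mul_mem (hF.mul_mem (Sv_mT hL hT ω) h1) h2
    refine hF.anti (le_of_eq ?_) h3
    rw [hζ]
    ring
  · exact hF.mul_mem (Sv_mT hL hT ω) (Sv_yy hL hz hz' a k)

lemma Sint_gg (hL : Tendsto L atTop atTop) {T : Fin n → GG} {z z' : GG}
    (hT : ∀ i, Sint B0 L (T i)) (hz : Sint B0 L z) (hz' : Sint B0 L z') {c : GG}
    (hc : Sint B0 L (z - c))
    (N M a B : ℕ) (ω : Fin n → ℕ) (k : ℕ) : Sint B0 L (gf N M a B T z z' c ω k) := by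
  unfold gf
  split_ifs
  · exact Sint.mul hL (Sint.mul hL (Sint_mT hL hT ω) (Sint_pow hL hz' _)) (Sint_pow hL hc _)
  · exact Sint.mul hL (Sint_mT hL hT ω) (Sint_yy hL hz hz' a k)

lemma sum_wg (N M a B : ℕ) (τ : Fin n → ℝ) (ζ θ κ : ℝ) (hζ : ζ = 0) (ω : Fin n → ℕ) :
    ∑ k ∈ Finset.range (a + B + 1), wg N M a B τ ζ θ κ ω k =
      ((a + B + 1 : ℕ) : ℝ) * (∑ i, (ω i : ℝ) * τ i) +
      (-(B * (B + 1) / 2 : ℝ) * ζ + (a * (a + 1) / 2 : ℝ) * (ζ - θ)) +
      if ∀ i, ω i + N ≤ M then κ * (((a + B : ℕ) : ℝ) * (((a + B : ℕ) : ℝ) + 1) / 2) else 0 := by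
  unfold wg
  split_ifs with h
  · rw [Finset.sum_add_distrib, sum_g, Finset.sum_const, Finset.card_range, nsmul_eq_mul, hζ]
    ring
  · unfold wy
    rw [Finset.sum_add_distrib, sum_w, Finset.sum_const, Finset.card_range, nsmul_eq_mul]
    ring

lemma sum_wxx (a B : ℕ) (τ : Fin n → ℝ) (ζ θ : ℝ) (ω : Fin n → ℕ) :
    ∑ k ∈ Finset.range (a + B + 1), ((∑ i, (ω i : ℝ) * τ i) + wy a (-ζ) (ζ - θ) k) =
      ((a + B + 1 : ℕ) : ℝ) * (∑ i, (ω i : ℝ) * τ i) +
      (-(B * (B + 1) / 2 : ℝ) * ζ + (a * (a + 1) / 2 : ℝ) * (ζ - θ)) := by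
  unfold wy
  rw [Finset.sum_add_distrib, sum_w, Finset.sum_const, Finset.card_range, nsmul_eq_mul]
  ring

lemma card_good (N M : ℕ) (hN : N ≤ M) (c : ℝ) :
    ∑ ω : Fin n → Fin (M + 1), (if ∀ i, ex ω i + N ≤ M then c else 0) =
      ((M + 1 - N : ℕ) : ℝ) ^ n * c := by
  classical
  rw [← Finset.sum_filter, Finset.sum_const, nsmul_eq_mul]
  congr 1
  have h1 : (Finset.univ.filter fun ω : Fin n → Fin (M + 1) => ∀ i, ex ω i + N ≤ M) =
      Fintype.piFinset fun _ : Fin n => Finset.univ.filter fun j : Fin (M + 1) =>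
        (j : ℕ) + N ≤ M := by
    ext ω
    simp only [Finset.mem_filter, Finset.mem_univ, true_and, Fintype.mem_piFinset]
    rfl
  have h2 : (Finset.univ.filter fun j : Fin (M + 1) => (j : ℕ) + N ≤ M).card = M + 1 - N := by
    have h3 : (Finset.univ.filter fun j : Fin (M + 1) => (j : ℕ) + N ≤ M) =
        (Finset.univ : Finset (Fin (M + 1 - N))).map
          (Fin.castLEEmb (by omega : M + 1 - N ≤ M + 1)) := by
      ext j
      simp only [Finset.mem_filter, Finset.mem_univ, true_and, Finset.mem_map]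
      constructor
      · intro h
        exact ⟨⟨j, by omega⟩, by ext; rfl⟩
      · rintro ⟨i, rfl⟩
        have := i.2
        simp only [Fin.castLEEmb_apply, Fin.val_castLE]
        omega
    rw [h3, Finset.card_map, Finset.card_univ, Fintype.card_fin]
  rw [h1, Fintype.card_piFinset, Finset.prod_const, Finset.card_univ, Fintype.card_fin, h2]
  push_cast
  rfl

/-- **the inequality for germs** -/
theorem transM (hL : Tendsto L atTop atTop) {T : Fin n → GG} {z z' : GG}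
    {P : MvPolynomial (Fin n) ℤ} (hP0 : P ≠ 0) (h : z * z' = aeval T P)
    (τ : Fin n → Option (Fin s) → ℝ) (ζ θ κ : Option (Fin s) → ℝ)
    (hτ : ∀ i, ∑ v, τ i v = 0) (hT : ∀ i v, T i ∈ Sv B0 L v (τ i v))
    (hz : ∀ v, z ∈ Sv B0 L v (-ζ v)) (hz' : ∀ v, z' ∈ Sv B0 L v (ζ v - θ v))
    (hTs : ∀ i, Sint B0 L (T i)) (hzs : Sint B0 L z) (hzs' : Sint B0 L z') {y Θ : ℝ}
    (hy : ∑ v, ζ v = y) (hΘ : ∑ v, θ v = Θ) (hκ0 : ∀ v, 0 ≤ κ v)
    (c : Option (Fin s) → GG)
    (hc : ∀ v, ∃ p q : ℤ, p ≠ 0 ∧ q ≠ 0 ∧ (q : GG) * c v = p)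
    (hcs : ∀ v, Sint B0 L (-c v))
    (hclose : ∀ v, 0 < κ v → (ζ v = 0 ∧ z - c v ∈ Sv B0 L v (κ v)) ∨
      (ζ v = θ v ∧ z' - c v ∈ Sv B0 L v (κ v)))
    (a B : ℕ) (hab : y * (B * (B + 1) / 2) + (Θ - y) * (a * (a + 1) / 2) <
      (∑ v, κ v) * (((a + B : ℕ) : ℝ) * (((a + B : ℕ) : ℝ) + 1) / 2))
    (hno : ∀ R : Polynomial (MvPolynomial (Fin n) ℤ), R ≠ 0 → evP T z R ≠ 0) : False := by
  classical
  -- the parameters
  obtain ⟨D, hD⟩ : ∃ D : ℕ, ∀ i, P.degreeOf i ≤ D :=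
    ⟨Finset.univ.sup fun i => P.degreeOf i, fun i =>
      Finset.le_sup (f := fun i => P.degreeOf i) (Finset.mem_univ i)⟩
  set N : ℕ := D * (a + B) with hN
  have hNa : D * a ≤ N := Nat.mul_le_mul_left _ (Nat.le_add_right _ _)
  have hNB : D * B ≤ N := Nat.mul_le_mul_left _ (Nat.le_add_left _ _)
  obtain ⟨M, hNM, hM⟩ := exists_M' hab N n
  -- types of places
  have hty : ∀ v, ∃ b : Bool, 0 < κ v → (b = true ∧ ζ v = 0 ∧ z - c v ∈ Sv B0 L v (κ v)) ∨
      (b = false ∧ ζ v = θ v ∧ z' - c v ∈ Sv B0 L v (κ v)) := by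
    intro v
    by_cases hv : 0 < κ v
    · rcases hclose v hv with h1 | h1
      · exact ⟨true, fun _ => Or.inl ⟨rfl, h1⟩⟩
      · exact ⟨false, fun _ => Or.inr ⟨rfl, h1⟩⟩
    · exact ⟨true, fun h => absurd h hv⟩
  choose ty hty using hty
  -- the families
  set pos : Option (Fin s) → Bool := fun v => decide (0 < κ v) with hpos
  have hposv : ∀ v, pos v = true ↔ 0 < κ v := fun v => by rw [hpos]; simp
  obtain ⟨hfam1, hfam2⟩ := families (M := M) hP0 h hno hD hNa hNB pos ty c hc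
  set ww : Option (Fin s) → II n M a B → ℝ := fun v x =>
    if pos v = true then
      (if ty v = true then wg N M a B (fun i => τ i v) (ζ v) (θ v) (κ v) (ex x.1) x.2
      else wg N M B a (fun i => τ i v) (θ v - ζ v) (θ v) (κ v) (ex x.1) x.2) else
      (∑ i, (ex x.1 i : ℝ) * τ i v) + wy a (-ζ v) (ζ v - θ v) x.2 with hww
  have hzc : ∀ v, Sint B0 L (z - c v) ∧ Sint B0 L (z' - c v) := by
    intro v
    constructor
    · rw [sub_eq_add_neg]
      exact Sint.add hL hzs (hcs v)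
    · rw [sub_eq_add_neg]
      exact Sint.add hL hzs' (hcs v)
  have key := fixq_thm s B0 L hL (II n M a B) inferInstance
    (zz N M a B T z z' pos ty c) ww hfam1 (fun v i => hfam2 v none i)
    (by
      intro v x
      rw [hww]
      unfold zz
      simp only []
      split_ifs with hv hb
      · rcases hty v ((hposv v).1 hv) with h1 | h1
        · exact Sv_gg hL (fun i => hT i v) (hz v) (hz' v) h1.2.1 h1.2.2 N M a B _ _
        · rw [hb] at h1
          exact absurd h1.1 (by decide)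
      · rcases hty v ((hposv v).1 hv) with h1 | h1
        · exact absurd h1.1 hb
        · refine Sv_gg hL (fun i => hT i v) ?_ ?_ ?_ h1.2.2 N M B a _ _
          · rw [neg_sub]; exact hz' v
          · have := hz v
            rwa [show θ v - ζ v - θ v = -ζ v by ring]
          · rw [h1.2.1, sub_self]
      · exact (filt_v (B := B0) hL v).mul_mem (Sv_mT hL (fun i => hT i v) _)
          (Sv_yy hL (hz v) (hz' v) a _))
    (by
      intro x
      unfold zz
      split_ifs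
      · exact Sint_gg hL hTs hzs hzs' (hzc none).1 _ _ _ _ _ _
      · exact Sint_gg hL hTs hzs' hzs (hzc none).2 _ _ _ _ _ _
      · exact Sint.mul hL (Sint_mT hL hTs _) (Sint_yy hL hzs hzs' _ _))
  -- the sums
  have hsum : ∀ v, ∑ x, ww v x = ∑ ω : Fin n → Fin (M + 1),
      (((a + B + 1 : ℕ) : ℝ) * (∑ i, (ex ω i : ℝ) * τ i v) +
      (-(B * (B + 1) / 2 : ℝ) * ζ v + (a * (a + 1) / 2 : ℝ) * (ζ v - θ v)) +
      if ∀ i, ex ω i + N ≤ M then κ v * (((a + B : ℕ) : ℝ) * (((a + B : ℕ) : ℝ) + 1) / 2)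
        else 0) := by
    intro v
    rw [Fintype.sum_prod_type]
    refine Finset.sum_congr rfl fun ω _ => ?_
    rw [hww]
    simp only []
    by_cases hv : 0 < κ v
    · simp only [if_pos ((hposv v).2 hv)]
      rcases hty v hv with ⟨hb, h1, -⟩ | ⟨hb, h1, -⟩
      · simp only [if_pos hb]
        rw [Fin.sum_univ_eq_sum_range
          (fun k => wg N M a B (fun i => τ i v) (ζ v) (θ v) (κ v) (ex ω) k), sum_wg _ _ _ _ _ _ _ _ h1]
      · simp only [hb, Bool.false_eq_true, if_false]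
        rw [Fin.sum_univ_eq_sum_range
          (fun k => wg N M B a (fun i => τ i v) (θ v - ζ v) (θ v) (κ v) (ex ω) k),
          show a + B + 1 = B + a + 1 by ring, sum_wg _ _ _ _ _ _ _ _ (by rw [h1, sub_self])]
        rw [show B + a = a + B by ring]
        ring
    · have hv0 : κ v = 0 := le_antisymm (not_lt.1 hv) (hκ0 v)
      simp only [if_neg (fun h => hv ((hposv v).1 h))]
      rw [Fin.sum_univ_eq_sum_range (fun k => (∑ i, (ex ω i : ℝ) * τ i v) +
        wy a (-ζ v) (ζ v - θ v) k), sum_wxx, hv0, zero_mul, ite_self, add_zero]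
  rw [Finset.sum_congr rfl fun v _ => hsum v, Finset.sum_comm] at key
  have h1 : ∀ ω : Fin n → Fin (M + 1), ∑ v, (((a + B + 1 : ℕ) : ℝ) * (∑ i, (ex ω i : ℝ) * τ i v) +
      (-(B * (B + 1) / 2 : ℝ) * ζ v + (a * (a + 1) / 2 : ℝ) * (ζ v - θ v)) +
      if ∀ i, ex ω i + N ≤ M then κ v * (((a + B : ℕ) : ℝ) * (((a + B : ℕ) : ℝ) + 1) / 2)
        else 0) = -(y * (B * (B + 1) / 2) + (Θ - y) * (a * (a + 1) / 2)) +
      if ∀ i, ex ω i + N ≤ M then (∑ v, κ v) * (((a + B : ℕ) : ℝ) * (((a + B : ℕ) : ℝ) + 1) / 2)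
        else 0 := by
    intro ω
    rw [Finset.sum_add_distrib, Finset.sum_add_distrib, ← Finset.mul_sum, Finset.sum_comm]
    have e1 : ∑ i, ∑ v, (ex ω i : ℝ) * τ i v = 0 := by
      refine Finset.sum_eq_zero fun i _ => ?_
      rw [← Finset.mul_sum, hτ, mul_zero]
    rw [e1, mul_zero, zero_add, Finset.sum_add_distrib, ← Finset.mul_sum, ← Finset.mul_sum,
      Finset.sum_sub_distrib, hy, hΘ]
    congr 1
    · ring
    · split_ifs
      · rw [← Finset.sum_mul]
      · exact Finset.sum_const_zero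
  rw [Finset.sum_congr rfl fun ω _ => h1 ω, Finset.sum_add_distrib, card_good N M hNM,
    Finset.sum_const, Finset.card_univ, Fintype.card_fun, Fintype.card_fin, Fintype.card_fin,
    nsmul_eq_mul] at key
  push_cast at key hM
  linarith

end Pool.Agent.H556.LG
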