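import Mathlib
import Pool.Agent.H556.LG.Defs
import Pool.Agent.H556.CP.Lem

/-!
# Valuations of sequences of rational numbers and germs
-/

set_option autoImplicit false

namespace Pool.Agent.H556.LG

open Filter Topology Pool.Agent.TH932.Abs Pool.Agent.TH932.Germs Pool.Agent.TH932.Chi
open Pool.Agent.TH796.AL Pool.Agent.H556.CP MvPolynomial

variable {s : ℕ} (b : Fin s → ℕ)

/-- the valuation at a place -/
noncomputable def vv (v : Option (Fin s)) (x : ℚ) : ℝ := -Real.log (av (v.map b) x)

lemma vv_none (x : ℚ) : vv b none x = -Real.log |(x : ℝ)| := rfl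

lemma vv_some (hb : ∀ v, (b v).Prime) (v : Fin s) {x : ℚ} (hx : x ≠ 0) :
    vv b (some v) x = (padicValRat (b v) x : ℝ) * Real.log (b v) := by
  have : Fact (b v).Prime := ⟨hb v⟩
  unfold vv
  have h1 : av ((some v : Option (Fin s)).map b) x = ((padicNorm (b v) x : ℚ) : ℝ) := rfl
  rw [h1, padicNorm.eq_zpow_of_nonzero hx]
  push_cast
  rw [Real.log_zpow]
  push_cast
  ring

lemma av_nonneg (v : Option ℕ) (x : ℚ) : 0 ≤ av v x := by
  cases v with
  | none => exact abs_nonneg _
  | some p =>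
    change (0 : ℝ) ≤ ((padicNorm p x : ℚ) : ℝ)
    exact_mod_cast padicNorm.nonneg x

lemma av_pos (hb : ∀ v, (b v).Prime) (v : Option (Fin s)) {x : ℚ} (hx : x ≠ 0) :
    0 < av (v.map b) x := by
  cases v with
  | none =>
    have h1 : av ((none : Option (Fin s)).map b) x = |(x : ℝ)| := rfl
    rw [h1]
    exact abs_pos.2 (by exact_mod_cast hx)
  | some v =>
    have : Fact (b v).Prime := ⟨hb v⟩
    have h1 : av ((some v : Option (Fin s)).map b) x = ((padicNorm (b v) x : ℚ) : ℝ) := rfl
    rw [h1]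
    have := padicNorm.nonneg (p := b v) x
    have h2 := padicNorm.nonzero (p := b v) hx
    exact_mod_cast lt_of_le_of_ne this (Ne.symm h2)

lemma av_sub_le (hb : ∀ v, (b v).Prime) (v : Option (Fin s)) (x y : ℚ) :
    |av (v.map b) x - av (v.map b) y| ≤ av (v.map b) (x - y) := by
  cases v with
  | none =>
    have h1 : ∀ x, av ((none : Option (Fin s)).map b) x = |(x : ℝ)| := fun _ => rfl
    rw [h1, h1, h1]
    push_cast
    exact abs_abs_sub_abs_le _ _
  | some v =>
    have : Fact (b v).Prime := ⟨hb v⟩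
    have h1 : ∀ x, av ((some v : Option (Fin s)).map b) x = ((padicNorm (b v) x : ℚ) : ℝ) :=
      fun _ => rfl
    rw [h1, h1, h1]
    have h2 : |padicNorm (b v) x - padicNorm (b v) y| ≤ padicNorm (b v) (x - y) := by
      rw [abs_le]
      constructor
      · have h3 := padicNorm.triangle_ineq (p := b v) x (y - x)
        have h4 : padicNorm (b v) (y - x) = padicNorm (b v) (x - y) := by
          rw [← padicNorm.neg]; congr 1; ring
        rw [show x + (y - x) = y by ring, h4] at h3
        linarith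
      · have h3 := padicNorm.triangle_ineq (p := b v) y (x - y)
        rw [show y + (x - y) = x by ring] at h3
        linarith
    exact_mod_cast h2

lemma ht_nonneg (x : ℚ) : 0 ≤ ht x := by
  unfold ht
  apply Real.log_natCast_nonneg

lemma log_num_le (x : ℚ) : Real.log x.num.natAbs ≤ ht x := by
  unfold ht
  by_cases h : x.num.natAbs = 0
  · rw [h]
    simp only [Nat.cast_zero, Real.log_zero]
    exact Real.log_natCast_nonneg _
  · exact Real.log_le_log (by exact_mod_cast Nat.pos_of_ne_zero h)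
      (by exact_mod_cast le_max_left _ _)

lemma log_den_le (x : ℚ) : Real.log x.den ≤ ht x := by
  unfold ht
  exact Real.log_le_log (by exact_mod_cast x.den_pos) (by exact_mod_cast le_max_right _ _)

lemma log_abs (x : ℚ) (hx : x ≠ 0) :
    Real.log |(x : ℝ)| = Real.log x.num.natAbs - Real.log x.den := by
  have h1 : |(x : ℝ)| = (x.num.natAbs : ℝ) / x.den := by
    conv_lhs => rw [← Rat.num_div_den x]
    push_cast
    rw [abs_div, Nat.abs_cast]
    congr 1
    rw [Nat.cast_natAbs]
    push_cast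
    rfl
  rw [h1, Real.log_div]
  · have := Rat.num_ne_zero.2 hx
    exact_mod_cast Int.natAbs_ne_zero.2 this
  · exact_mod_cast x.den_ne_zero

lemma val_log_le {p m : ℕ} (hp : p.Prime) (hm : m ≠ 0) :
    (padicValNat p m : ℝ) * Real.log p ≤ Real.log m := by
  rw [← Real.log_pow]
  apply Real.log_le_log
  · exact_mod_cast pow_pos hp.pos _
  · exact_mod_cast Nat.le_of_dvd (Nat.pos_of_ne_zero hm) pow_padicValNat_dvd

lemma padicValRat_eq' (p : ℕ) (x : ℚ) :
    (padicValRat p x : ℝ) = (padicValNat p x.num.natAbs : ℝ) - (padicValNat p x.den : ℝ) := by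
  unfold padicValRat padicValInt
  rw [Int.cast_sub, Int.cast_natCast, Int.cast_natCast]

lemma abs_vv_le (hb : ∀ v, (b v).Prime) (v : Option (Fin s)) {x : ℚ} (hx : x ≠ 0) :
    |vv b v x| ≤ ht x := by
  have hn : x.num.natAbs ≠ 0 := Int.natAbs_ne_zero.2 (Rat.num_ne_zero.2 hx)
  have h1 := log_num_le x
  have h2 := log_den_le x
  have h3 : 0 ≤ Real.log x.num.natAbs := Real.log_natCast_nonneg _
  have h4 : 0 ≤ Real.log x.den := Real.log_natCast_nonneg _
  cases v with
  | none =>
    rw [vv_none, log_abs x hx, abs_le]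
    constructor <;> linarith
  | some v =>
    rw [vv_some b hb v hx, padicValRat_eq', sub_mul]
    have h5 := val_log_le (hb v) hn
    have h6 := val_log_le (hb v) x.den_ne_zero
    have h7 : 0 ≤ (padicValNat (b v) x.num.natAbs : ℝ) * Real.log (b v) :=
      mul_nonneg (Nat.cast_nonneg _) (Real.log_natCast_nonneg _)
    have h8 : 0 ≤ (padicValNat (b v) x.den : ℝ) * Real.log (b v) :=
      mul_nonneg (Nat.cast_nonneg _) (Real.log_natCast_nonneg _)
    rw [abs_le]
    constructor <;> linarith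

/-- the primes as a set -/
lemma sum_vv (hb : ∀ v, (b v).Prime) (hbi : Function.Injective b) {x : ℚ} (hx : x ≠ 0) :
    ∑ v, vv b v x = cf (Finset.univ.image b) x.den - cf (Finset.univ.image b) x.num.natAbs := by
  rw [Fintype.sum_option, vv_none, log_abs x hx]
  unfold cf
  rw [Finset.sum_image (fun i _ j _ h => hbi h), Finset.sum_image (fun i _ j _ h => hbi h)]
  have h1 : ∑ v, vv b (some v) x = ∑ v, ((padicValNat (b v) x.num.natAbs : ℝ) * Real.log (b v) -
      (padicValNat (b v) x.den : ℝ) * Real.log (b v)) := by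
    refine Finset.sum_congr rfl fun v _ => ?_
    rw [vv_some b hb v hx, padicValRat_eq', sub_mul]
  rw [h1, Finset.sum_sub_distrib]
  ring

/-- the prime-to-`S` part -/
lemma exists_part (hb : ∀ v, (b v).Prime) (hbi : Function.Injective b) {m : ℕ} (hm : m ≠ 0) :
    ∃ r : ℕ, r ≠ 0 ∧ m = (∏ v, b v ^ padicValNat (b v) m) * r ∧
      Real.log r = cf (Finset.univ.image b) m := by
  have h1 : (∏ v, b v ^ padicValNat (b v) m) ∣ m := by
    apply Finset.prod_dvd_of_isRelPrime
    · intro i _ j _ hij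
      refine Nat.coprime_iff_isRelPrime.1 ?_
      exact Nat.Coprime.pow _ _ ((Nat.coprime_primes (hb i) (hb j)).2 (fun h => hij (hbi h)))
    · intro i _
      exact pow_padicValNat_dvd
  obtain ⟨r, hr⟩ := h1
  have hr0 : r ≠ 0 := by
    rintro rfl
    rw [mul_zero] at hr
    exact hm hr
  refine ⟨r, hr0, hr, ?_⟩
  have h2 : Real.log m = (∑ v, (padicValNat (b v) m : ℝ) * Real.log (b v)) + Real.log r := by
    conv_lhs => rw [hr]
    push_cast
    rw [Real.log_mul, Real.log_prod]
    · congr 1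
      exact Finset.sum_congr rfl fun v _ => Real.log_pow _ _
    · intro v _
      exact pow_ne_zero _ (by exact_mod_cast (hb v).ne_zero)
    · exact Finset.prod_ne_zero_iff.2 fun v _ =>
        pow_ne_zero _ (by exact_mod_cast (hb v).ne_zero)
    · exact_mod_cast hr0
  unfold cf
  rw [h2, Finset.sum_image (fun i _ j _ h => hbi h)]
  ring

lemma cf_nonneg (hb : ∀ v, (b v).Prime) (hbi : Function.Injective b) (m : ℕ) :
    0 ≤ cf (Finset.univ.image b) m := by
  by_cases hm : m = 0
  · subst hm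
    unfold cf
    simp
  · obtain ⟨r, -, -, h⟩ := exists_part b hb hbi hm
    rw [← h]
    exact Real.log_natCast_nonneg _

section germs

variable {B0 : Base s} {L : ℕ → ℝ}

/-- membership in the filtrations -/
lemma mem_Sv (hb : ∀ v, (b v).Prime) (hB : B0.P = b) (hL : Tendsto L atTop atTop)
    (v : Option (Fin s)) {x : ℕ → ℚ} (hx : ∀ᶠ n in (UU : Filter ℕ), x n ≠ 0) {t : ℝ}
    (ht : Tendsto (fun n => vv b v (x n) / L n) (UU : Filter ℕ) (𝓝 t)) :
    gm x ∈ Sv B0 L v t := by
  refine ⟨x, rfl, fun ε hε => ?_⟩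
  have h1 : ∀ᶠ n in (UU : Filter ℕ), 0 < L n := ev_of_atTop (hL.eventually_gt_atTop 0)
  have h2 : ∀ᶠ n in (UU : Filter ℕ), t - ε < vv b v (x n) / L n :=
    ht.eventually (lt_mem_nhds (by linarith))
  filter_upwards [h1, h2, hx] with n h3 h4 h5
  rw [lt_div_iff₀ h3] at h4
  cases v with
  | none =>
    change |((x n : ℚ) : ℝ)| ≤ Real.exp (-(t - ε) * L n)
    rw [vv_none] at h4
    have h6 : Real.log |((x n : ℚ) : ℝ)| ≤ -(t - ε) * L n := by linarith
    have h7 : 0 < |((x n : ℚ) : ℝ)| := abs_pos.2 (by exact_mod_cast h5)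
    exact (Real.log_le_iff_le_exp h7).1 h6
  | some v =>
    have hp : Fact (b v).Prime := ⟨hb v⟩
    rw [vv_some b hb v h5] at h4
    change ∃ d e m k : ℤ, d ≠ 0 ∧ |(d : ℝ)| ≤ Real.exp (ε * L n) ∧
      e ∈ Pool.Agent.TH932.Germs.cop (B0.P v) ∧ (d : ℚ) * e * x n = (B0.P v : ℚ) ^ k * m ∧
      (t - ε) * L n ≤ k * Real.log (B0.P v)
    rw [hB]
    -- the decomposition of the number
    set p := b v with hpv
    have hp0 : (p : ℚ) ≠ 0 := by exact_mod_cast (hb v).ne_zero
    have hnum : (x n).num ≠ 0 := Rat.num_ne_zero.2 h5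
    obtain ⟨u, hu⟩ : ((p : ℤ) ^ padicValInt p (x n).num) ∣ (x n).num := by
      exact padicValInt_dvd (x n).num
    obtain ⟨w, hw⟩ : (p ^ padicValNat p (x n).den) ∣ (x n).den := pow_padicValNat_dvd
    have hw0 : w ≠ 0 := by
      rintro rfl
      rw [mul_zero] at hw
      exact (x n).den_ne_zero hw
    have hwp : ¬ p ∣ w := by
      intro h
      have h7 := Nat.mul_dvd_mul (dvd_refl (p ^ padicValNat p (x n).den)) h
      rw [← hw, ← pow_succ] at h7
      exact pow_succ_padicValNat_not_dvd (x n).den_ne_zero h7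
    refine ⟨1, w, u, padicValRat p (x n), one_ne_zero, ?_, ?_, ?_, h4.le⟩
    · rw [Int.cast_one, abs_one]
      exact Real.one_le_exp (by positivity)
    · change IsCoprime (w : ℤ) (p : ℤ)
      rw [Nat.isCoprime_iff_coprime]
      exact ((Nat.Prime.coprime_iff_not_dvd (hb v)).2 hwp).symm
    · have h6 : x n = (x n).num / (x n).den := (Rat.num_div_den (x n)).symm
      have h8 : ((x n).num : ℚ) = (p : ℚ) ^ padicValInt p (x n).num * u := by
        conv_lhs => rw [hu]
        push_cast
        rfl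
      have h9 : ((x n).den : ℚ) = (p : ℚ) ^ padicValNat p (x n).den * w := by
        conv_lhs => rw [hw]
        push_cast
        rfl
      have hw0' : (w : ℚ) ≠ 0 := by exact_mod_cast hw0
      have h10 : (p : ℚ) ^ padicValRat p (x n) =
          (p : ℚ) ^ padicValInt p (x n).num / (p : ℚ) ^ padicValNat p (x n).den := by
        unfold padicValRat
        rw [zpow_sub₀ hp0, zpow_natCast, zpow_natCast]
      rw [h10]
      conv_lhs => rw [h6, h8, h9]
      push_cast
      field_simp

/-- `S`-integral germs -/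
lemma mem_Sint (hb : ∀ v, (b v).Prime) (hbi : Function.Injective b) (hB : B0.P = b)
    (hL : Tendsto L atTop atTop) {x : ℕ → ℚ} {C : ℝ}
    (hC : ∀ᶠ n in (UU : Filter ℕ), ht (x n) ≤ C * L n)
    (hd : ∀ ε : ℝ, 0 < ε → ∀ᶠ n in (UU : Filter ℕ),
      cf (Finset.univ.image b) (x n).den ≤ ε * L n) :
    Sint B0 L (gm x) := by
  refine ⟨-C, x, rfl, fun ε hε => ?_⟩
  have h1 : ∀ᶠ n in (UU : Filter ℕ), 0 < L n := ev_of_atTop (hL.eventually_gt_atTop 0)
  filter_upwards [h1, hC, hd ε hε] with n h3 h4 h5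
  obtain ⟨r, hr0, hr, hlr⟩ := exists_part b hb hbi (x n).den_ne_zero
  refine ⟨r, (x n).num, fun v => -(padicValNat (b v) (x n).den : ℤ), by exact_mod_cast hr0, ?_,
    ?_, ?_⟩
  · have hr1 : (0 : ℝ) < r := by exact_mod_cast Nat.pos_of_ne_zero hr0
    rw [Int.cast_natCast, abs_of_pos hr1]
    rw [← hlr] at h5
    exact (Real.log_le_iff_le_exp hr1).1 h5
  · rw [hB]
    have h6 : x n = (x n).num / (x n).den := (Rat.num_div_den (x n)).symm
    have h7 : ((x n).den : ℚ) = (∏ v, (b v : ℚ) ^ padicValNat (b v) (x n).den) * r := by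
      conv_lhs => rw [hr]
      push_cast
      rfl
    have h8 : (∏ v, (b v : ℚ) ^ (-(padicValNat (b v) (x n).den : ℤ))) =
        (∏ v, (b v : ℚ) ^ padicValNat (b v) (x n).den)⁻¹ := by
      rw [← Finset.prod_inv_distrib]
      refine Finset.prod_congr rfl fun v _ => ?_
      rw [zpow_neg, zpow_natCast]
    have h9 : (∏ v, (b v : ℚ) ^ padicValNat (b v) (x n).den) ≠ 0 :=
      Finset.prod_ne_zero_iff.2 fun v _ => pow_ne_zero _ (by exact_mod_cast (hb v).ne_zero)
    have hr2 : (r : ℚ) ≠ 0 := by exact_mod_cast hr0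
    rw [h8]
    conv_lhs => rw [h6, h7]
    push_cast
    field_simp
  · intro v
    rw [hB, Int.cast_neg, Int.cast_natCast]
    have h6 := val_log_le (hb v) (x n).den_ne_zero
    have h7 := log_den_le (x n)
    nlinarith [mul_pos hε h3]

/-- limits along the ultrafilter -/
lemma exists_ulim {f : ℕ → ℝ} {C : ℝ} (hf : ∀ᶠ n in (UU : Filter ℕ), |f n| ≤ C) :
    ∃ t, Tendsto f (UU : Filter ℕ) (𝓝 t) := by
  have h1 : ((UU.map f : Ultrafilter ℝ) : Filter ℝ) ≤ Filter.principal (Set.Icc (-C) C) := by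
    rw [Filter.le_principal_iff, Ultrafilter.coe_map, Filter.mem_map]
    filter_upwards [hf] with n hn
    exact abs_le.1 hn
  obtain ⟨t, -, ht⟩ := (isCompact_Icc (a := -C) (b := C)).ultrafilter_le_nhds _ h1
  exact ⟨t, ht⟩

/-- the values of polynomials -/
lemma aeval_gm {n : ℕ} (t : ℕ → Fin n → ℚ) (Q : MvPolynomial (Fin n) ℤ) :
    aeval (fun i => gm fun k => t k i) Q = gm (fun k => aeval (t k) Q) := by
  induction Q using MvPolynomial.induction_on with
  | C a =>
    rw [algHom_C]
    have : (fun k => aeval (t k) (C a)) = fun _ : ℕ => ((a : ℤ) : ℚ) := by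
      funext k
      rw [algHom_C]
      simp
    rw [this]
    simp only [eq_intCast]
    rfl
  | add p q hp hq =>
    rw [map_add, hp, hq, gm_add]
    congr 1
    funext k
    rw [map_add]
  | mul_X p i hp =>
    rw [map_mul, hp, aeval_X, gm_mul]
    congr 1
    funext k
    rw [map_mul, aeval_X]

lemma evP_gm {n : ℕ} (t : ℕ → Fin n → ℚ) (z : ℕ → ℚ)
    (R : Polynomial (MvPolynomial (Fin n) ℤ)) :
    evP (fun i => gm fun k => t k i) (gm z) R = gm (fun k => evP (t k) (z k) R) := by
  have hpow : ∀ m : ℕ, gm z ^ m = gm (fun k => z k ^ m) := by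
    intro m
    rfl
  induction R using Polynomial.induction_on' with
  | add p q hp hq =>
    unfold evP at hp hq ⊢
    rw [Polynomial.eval₂_add, hp, hq, gm_add]
    congr 1
    funext k
    rw [Polynomial.eval₂_add]
  | monomial m Q =>
    unfold evP
    rw [Polynomial.eval₂_monomial]
    have h1 : (eval₂Hom (Int.castRingHom GG) fun i => gm fun k => t k i) Q =
      aeval (fun i => gm fun k => t k i) Q := rfl
    rw [h1, aeval_gm, hpow, gm_mul]
    congr 1
    funext k
    rw [Polynomial.eval₂_monomial]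
    rfl

end germs

end Pool.Agent.H556.LG
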