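import Mathlib
import Pool.Agent.H556.LG.Main
import Pool.Agent.H556.LG.Val

/-!
# The inequality for sequences of points of the variety `x y = P(T)`
-/

set_option autoImplicit false

namespace Pool.Agent.H556.LG

open Filter Topology Pool.Agent.TH932.Abs Pool.Agent.TH932.Germs Pool.Agent.TH932.Chi
open Pool.Agent.TH796.AL Pool.Agent.H556.CP MvPolynomial

lemma ht_le_of (p q : ℤ) (hq : q ≠ 0) : ht ((p : ℚ) / q) ≤
    Real.log (max p.natAbs q.natAbs : ℕ) := by
  unfold ht
  have h1 : ((p : ℚ) / q).num.natAbs ≤ max p.natAbs q.natAbs := by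
    have h2 : ((p : ℚ) / q).num ∣ p := by
      rw [← Rat.divInt_eq_div]; exact Rat.num_dvd p hq
    by_cases hp : p = 0
    · subst hp; simp
    · exact (Nat.le_of_dvd (Int.natAbs_pos.2 hp) (Int.natAbs_dvd_natAbs.2 h2)).trans
        (le_max_left _ _)
  have h3 : ((p : ℚ) / q).den ≤ max p.natAbs q.natAbs := by
    have h2 : (((p : ℚ) / q).den : ℤ) ∣ q := by
      rw [← Rat.divInt_eq_div]; exact Rat.den_dvd p q
    have h4 : ((p : ℚ) / q).den ∣ q.natAbs := by
      have := Int.natAbs_dvd_natAbs.2 h2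
      simpa using this
    exact (Nat.le_of_dvd (Int.natAbs_pos.2 hq) h4).trans (le_max_right _ _)
  apply Real.log_le_log
  · exact_mod_cast lt_of_lt_of_le ((p : ℚ) / q).den_pos (le_max_right _ _)
  · exact_mod_cast max_le h1 h3

lemma ht_sub_le (x c : ℚ) : ht (x - c) ≤ ht x + ht c + Real.log 2 := by
  have h1 : x - c = ((x.num * c.den - c.num * x.den : ℤ) : ℚ) / ((x.den * c.den : ℕ) : ℤ) := by
    conv_lhs => rw [← Rat.num_div_den x, ← Rat.num_div_den c]
    have hx : (x.den : ℚ) ≠ 0 := by exact_mod_cast x.den_ne_zero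
    have hc : (c.den : ℚ) ≠ 0 := by exact_mod_cast c.den_ne_zero
    push_cast
    field_simp
  rw [h1]
  refine (ht_le_of _ _ ?_).trans ?_
  · exact_mod_cast Nat.mul_ne_zero x.den_ne_zero c.den_ne_zero
  set A := max x.num.natAbs x.den with hA
  set C := max c.num.natAbs c.den with hC
  have hA0 : 0 < A := lt_of_lt_of_le x.den_pos (le_max_right _ _)
  have hC0 : 0 < C := lt_of_lt_of_le c.den_pos (le_max_right _ _)
  have h2 : max (x.num * c.den - c.num * x.den : ℤ).natAbs ((x.den * c.den : ℕ) : ℤ).natAbs ≤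
      2 * (A * C) := by
    refine max_le ?_ ?_
    · have h3 := Int.natAbs_sub_le (x.num * c.den) (c.num * x.den)
      rw [Int.natAbs_mul, Int.natAbs_mul, Int.natAbs_natCast, Int.natAbs_natCast] at h3
      have h4 : x.num.natAbs * c.den ≤ A * C :=
        Nat.mul_le_mul (le_max_left _ _) (le_max_right _ _)
      have h5 : c.num.natAbs * x.den ≤ A * C := by
        rw [Nat.mul_comm]
        exact Nat.mul_le_mul (le_max_right _ _) (le_max_left _ _)
      omega
    · rw [Int.natAbs_natCast]
      have h5 : x.den * c.den ≤ A * C := Nat.mul_le_mul (le_max_right _ _) (le_max_right _ _)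
      omega
  have h6 : Real.log ((2 * (A * C) : ℕ) : ℝ) = ht x + ht c + Real.log 2 := by
    unfold ht
    rw [← hA, ← hC]
    push_cast
    rw [Real.log_mul (by norm_num) (by positivity), Real.log_mul (by positivity) (by positivity)]
    ring
  rw [← h6]
  apply Real.log_le_log
  · have : 0 < ((x.den * c.den : ℕ) : ℤ).natAbs := by
      rw [Int.natAbs_natCast]
      exact Nat.mul_pos x.den_pos c.den_pos
    exact_mod_cast lt_of_lt_of_le this (le_max_right _ _)
  · exact_mod_cast h2

lemma exists_ab' {y y' κ : ℝ} (hy : 0 ≤ y) (hy' : 0 ≤ y') (hκ : y * y' / (y + y') < κ) :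
    ∃ a B : ℕ, y * (B * (B + 1) / 2) + y' * (a * (a + 1) / 2) <
      κ * (((a + B : ℕ) : ℝ) * (((a + B : ℕ) : ℝ) + 1) / 2) := by
  rcases (add_nonneg hy hy').eq_or_lt with h | h
  · have h1 : y = 0 := by linarith
    have h2 : y' = 0 := by linarith
    rw [h1, h2] at hκ
    refine ⟨0, 1, ?_⟩
    rw [h1, h2]
    norm_num at hκ ⊢
    linarith
  · set Θ := y + y' with hΘ
    obtain ⟨a, B, hab⟩ := exists_ab (y := y / Θ) (κ := κ / Θ) (by positivity)
      (by rw [div_le_one h]; linarith) (by
        rw [lt_div_iff₀ h]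
        have : y / Θ * (1 - y / Θ) * Θ = y * y' / Θ := by
          have h3 : y' = Θ - y := by rw [hΘ]; ring
          rw [h3]
          field_simp
        rw [this]
        exact hκ)
    refine ⟨a, B, ?_⟩
    have h4 := mul_lt_mul_of_pos_left hab h
    have e1 : Θ * ((1 - y / Θ) * (a * (a + 1) / 2) + y / Θ * (B * (B + 1) / 2)) =
        y * (B * (B + 1) / 2) + y' * (a * (a + 1) / 2) := by
      have h3 : y' = Θ - y := by rw [hΘ]; ring
      rw [h3]
      field_simp
      ring
    have e2 : Θ * (κ / Θ * (((a + B : ℕ) : ℝ) * (((a + B : ℕ) : ℝ) + 1) / 2)) =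
        κ * (((a + B : ℕ) : ℝ) * (((a + B : ℕ) : ℝ) + 1) / 2) := by
      field_simp
    rw [e1, e2] at h4
    exact h4

lemma const_of_finite {α : Type*} (t : Finset α) {f : ℕ → α} (hf : ∀ n, f n ∈ t) :
    ∃ c ∈ t, ∀ᶠ n in (UU : Filter ℕ), f n = c := by
  have h1 : (⋃ c ∈ (t : Set α), {n | f n = c}) ∈ UU := by
    have : (⋃ c ∈ (t : Set α), {n | f n = c}) = Set.univ := by
      ext n
      simp only [Set.mem_iUnion, Set.mem_setOf_eq, exists_prop, exists_eq_right', Set.mem_univ,
        iff_true]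
      exact hf n
    rw [this]
    exact Filter.univ_mem
  obtain ⟨c, hc, h2⟩ := (Ultrafilter.finite_biUnion_mem_iff t.finite_toSet).1 h1
  exact ⟨c, hc, h2⟩

/-- **the inequality for sequences** -/
theorem coreLG {s : ℕ} (b : Fin s → ℕ) (hb : ∀ v, (b v).Prime) (hbi : Function.Injective b)
    {n : ℕ} {P : MvPolynomial (Fin n) ℤ} (hP0 : P ≠ 0) (C : Finset ℚ) (hC : (0 : ℚ) ∉ C)
    (T : ℕ → Fin n → ℚ) (x y : ℕ → ℚ) (L : ℕ → ℝ)
    (hLd : ∀ k, L k = ht (x k) + ht (y k) + ∑ i, ht (T k i)) (hL : Tendsto L atTop atTop)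
    (hgen : ∀ R : Polynomial (MvPolynomial (Fin n) ℤ), R ≠ 0 →
      ∀ᶠ k in atTop, evP (T k) (x k) R ≠ 0)
    (hxy : ∀ k, x k * y k = aeval (T k) P)
    (hint : ∀ ε : ℝ, 0 < ε → ∀ᶠ k in atTop,
      (∀ i, cf (Finset.univ.image b) (T k i).num.natAbs ≤ ε * L k ∧
        cf (Finset.univ.image b) (T k i).den ≤ ε * L k) ∧
      cf (Finset.univ.image b) (x k).den ≤ ε * L k ∧
      cf (Finset.univ.image b) (y k).den ≤ ε * L k)
    (f : ℕ → Option (Fin s) → Bool × ℚ) (hf : ∀ k v, (f k v).2 ∈ C) {ε : ℝ} (hε : 0 < ε)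
    (hviol : ∀ k, cf (Finset.univ.image b) (x k).num.natAbs *
        cf (Finset.univ.image b) (y k).num.natAbs /
        (cf (Finset.univ.image b) (x k).num.natAbs + cf (Finset.univ.image b) (y k).num.natAbs) +
        ε * L k < ∑ v : Option (Fin s), Real.posLog
          (1 / av (v.map b) ((if (f k v).1 = true then x k else y k) - (f k v).2))) : False := by
  classical
  set S := Finset.univ.image b with hS
  set B0 : Base s := ⟨b, fun i => (hb i).two_le, fun i j hij => by
    rw [Nat.isCoprime_iff_coprime]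
    exact (Nat.coprime_primes (hb i) (hb j)).2 (fun h => hij (hbi h))⟩ with hB0
  have hBb : B0.P = b := rfl
  have hL0 : ∀ᶠ k in (UU : Filter ℕ), 0 < L k := ev_of_atTop (hL.eventually_gt_atTop 0)
  -- nonvanishing
  have hx0 : ∀ᶠ k in (UU : Filter ℕ), x k ≠ 0 := by
    have := ev_of_atTop (hgen Polynomial.X Polynomial.X_ne_zero)
    filter_upwards [this] with k hk
    unfold evP at hk
    rwa [Polynomial.eval₂_X] at hk
  have hP : ∀ᶠ k in (UU : Filter ℕ), aeval (T k) P ≠ 0 := by
    have := ev_of_atTop (hgen (Polynomial.C P) (by rwa [Ne, Polynomial.C_eq_zero]))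
    filter_upwards [this] with k hk
    unfold evP at hk
    rw [Polynomial.eval₂_C] at hk
    exact hk
  have hy0 : ∀ᶠ k in (UU : Filter ℕ), y k ≠ 0 := by
    filter_upwards [hP] with k hk h
    apply hk
    rw [← hxy, h, mul_zero]
  have hT0 : ∀ i, ∀ᶠ k in (UU : Filter ℕ), T k i ≠ 0 := by
    intro i
    have := ev_of_atTop (hgen (Polynomial.C (X i)) (by
      rw [Ne, Polynomial.C_eq_zero]; exact X_ne_zero i))
    filter_upwards [this] with k hk
    unfold evP at hk
    rw [Polynomial.eval₂_C] at hk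
    have h1 : (eval₂Hom (Int.castRingHom ℚ) (T k)) (X i) = T k i := eval₂Hom_X' _ _ _
    rwa [h1] at hk
  -- heights
  have hTn : ∀ k, 0 ≤ ∑ i, ht (T k i) := fun k => Finset.sum_nonneg fun i _ => ht_nonneg _
  have hxL : ∀ k, ht (x k) ≤ L k := fun k => by
    rw [hLd]; have := ht_nonneg (y k); have := hTn k; linarith
  have hyL : ∀ k, ht (y k) ≤ L k := fun k => by
    rw [hLd]; have := ht_nonneg (x k); have := hTn k; linarith
  have hTL : ∀ k i, ht (T k i) ≤ L k := fun k i => by
    rw [hLd]
    have h1 := ht_nonneg (x k)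
    have h2 := ht_nonneg (y k)
    have h3 : ht (T k i) ≤ ∑ i, ht (T k i) :=
      Finset.single_le_sum (f := fun i => ht (T k i)) (fun _ _ => ht_nonneg _)
        (Finset.mem_univ i)
    linarith
  -- limits of the valuations
  have hlim : ∀ (w : ℕ → ℚ), (∀ᶠ k in (UU : Filter ℕ), w k ≠ 0) → (∀ k, ht (w k) ≤ L k) →
      ∀ v, ∃ t, Tendsto (fun k => vv b v (w k) / L k) (UU : Filter ℕ) (𝓝 t) := by
    intro w hw hwL v
    apply exists_ulim (C := 1)
    filter_upwards [hw, hL0] with k h1 h2
    rw [abs_div, abs_of_pos h2, div_le_one h2]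
    exact (abs_vv_le b hb v h1).trans (hwL k)
  choose α hα using hlim x hx0 hxL
  choose β hβ using hlim y hy0 hyL
  choose τ hτ using fun i => hlim (fun k => T k i) (hT0 i) (fun k => hTL k i)
  -- small quantities
  have hsm : ∀ (g : ℕ → ℝ), (∀ k, 0 ≤ g k) →
      (∀ ε : ℝ, 0 < ε → ∀ᶠ k in (UU : Filter ℕ), g k ≤ ε * L k) →
      Tendsto (fun k => g k / L k) (UU : Filter ℕ) (𝓝 0) := by
    intro g hg0 hg
    rw [Metric.tendsto_nhds]
    intro δ hδ
    filter_upwards [hg (δ / 2) (by positivity), hL0] with k h1 h2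
    rw [Real.dist_eq, sub_zero, abs_of_nonneg (div_nonneg (hg0 k) h2.le)]
    have h3 : g k / L k ≤ δ / 2 := by rwa [div_le_iff₀ h2]
    linarith
  have hint' : ∀ ε : ℝ, 0 < ε → ∀ᶠ k in (UU : Filter ℕ),
      (∀ i, cf S (T k i).num.natAbs ≤ ε * L k ∧ cf S (T k i).den ≤ ε * L k) ∧
      cf S (x k).den ≤ ε * L k ∧ cf S (y k).den ≤ ε * L k := fun ε hε =>
    ev_of_atTop (hint ε hε)
  have hxd := hsm (fun k => cf S (x k).den) (fun k => cf_nonneg b hb hbi _)
    (fun ε hε => (hint' ε hε).mono fun k h => h.2.1)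
  have hyd := hsm (fun k => cf S (y k).den) (fun k => cf_nonneg b hb hbi _)
    (fun ε hε => (hint' ε hε).mono fun k h => h.2.2)
  have hTd := fun i => hsm (fun k => cf S (T k i).den) (fun k => cf_nonneg b hb hbi _)
    (fun ε hε => (hint' ε hε).mono fun k h => (h.1 i).2)
  have hTn' := fun i => hsm (fun k => cf S (T k i).num.natAbs) (fun k => cf_nonneg b hb hbi _)
    (fun ε hε => (hint' ε hε).mono fun k h => (h.1 i).1)
  -- the sums of the weights
  have hsumlim : ∀ (w : ℕ → ℚ) (t : Option (Fin s) → ℝ), (∀ᶠ k in (UU : Filter ℕ), w k ≠ 0) →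
      (∀ v, Tendsto (fun k => vv b v (w k) / L k) (UU : Filter ℕ) (𝓝 (t v))) →
      Tendsto (fun k => cf S (w k).den / L k - cf S (w k).num.natAbs / L k) (UU : Filter ℕ)
        (𝓝 (∑ v, t v)) := by
    intro w t hw ht
    refine (tendsto_finsetSum Finset.univ fun v _ => ht v).congr' ?_
    filter_upwards [hw] with k hk
    rw [← Finset.sum_div, sum_vv b hb hbi hk, sub_div]
  have hτs : ∀ i, ∑ v, τ i v = 0 := by
    intro i
    have h1 := hsumlim _ _ (hT0 i) (hτ i)
    have h2 := (hTd i).sub (hTn' i)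
    rw [sub_zero] at h2
    exact tendsto_nhds_unique h1 h2
  set Y : ℝ := -∑ v, α v with hY
  set Y' : ℝ := -∑ v, β v with hY'
  have hNx : Tendsto (fun k => cf S (x k).num.natAbs / L k) (UU : Filter ℕ) (𝓝 Y) := by
    have h1 := hxd.sub (hsumlim x α hx0 hα)
    rw [zero_sub] at h1
    refine h1.congr fun k => ?_
    ring
  have hNy : Tendsto (fun k => cf S (y k).num.natAbs / L k) (UU : Filter ℕ) (𝓝 Y') := by
    have h1 := hyd.sub (hsumlim y β hy0 hβ)
    rw [zero_sub] at h1
    refine h1.congr fun k => ?_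
    ring
  have hY0 : 0 ≤ Y := ge_of_tendsto hNx (hL0.mono fun k h =>
    div_nonneg (cf_nonneg b hb hbi _) h.le)
  have hY'0 : 0 ≤ Y' := ge_of_tendsto hNy (hL0.mono fun k h =>
    div_nonneg (cf_nonneg b hb hbi _) h.le)
  -- the constant choices
  have hfc : ∀ v, ∃ g : Bool × ℚ, g.2 ∈ C ∧ ∀ᶠ k in (UU : Filter ℕ), f k v = g := by
    intro v
    obtain ⟨g, hg, h1⟩ := const_of_finite ((Finset.univ : Finset Bool) ×ˢ C)
      (f := fun k => f k v) (fun k => by
        rw [Finset.mem_product]
        exact ⟨Finset.mem_univ _, hf k v⟩)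
    exact ⟨g, (Finset.mem_product.1 hg).2, h1⟩
  choose g hgC hg using hfc
  have hg0 : ∀ v, (g v).2 ≠ 0 := fun v h => hC (h ▸ hgC v)
  -- the functions
  set w : Option (Fin s) → ℕ → ℚ := fun v k =>
    (if (g v).1 = true then x k else y k) - (g v).2 with hw
  have hwL : ∀ v, ∀ᶠ k in (UU : Filter ℕ), ht (w v k) ≤ 2 * L k := by
    intro v
    have h1 : ∀ᶠ k in (UU : Filter ℕ), ht (g v).2 + Real.log 2 ≤ L k :=
      ev_of_atTop (hL.eventually_ge_atTop _)
    filter_upwards [h1] with k h1
    rw [hw]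
    simp only []
    refine (ht_sub_le _ _).trans ?_
    split_ifs
    · have := hxL k; linarith
    · have := hyL k; linarith
  have hκ : ∀ v, ∃ t, Tendsto (fun k => Real.posLog (1 / av (v.map b) (w v k)) / L k)
      (UU : Filter ℕ) (𝓝 t) := by
    intro v
    apply exists_ulim (C := 2)
    filter_upwards [hwL v, hL0] with k h1 h2
    rw [abs_div, abs_of_pos h2, div_le_iff₀ h2, abs_of_nonneg Real.posLog_nonneg]
    by_cases h3 : w v k = 0
    · have h4 : av (v.map b) (w v k) = 0 := by
        rw [h3]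
        cases v with
        | none => change |((0 : ℚ) : ℝ)| = 0; simp
        | some v => change ((padicNorm (b v) 0 : ℚ) : ℝ) = 0; simp
      rw [h4, div_zero]
      simp only [Real.posLog_zero]
      positivity
    · unfold Real.posLog
      refine max_le (by positivity) ?_
      have h4 := (abs_le.1 (abs_vv_le b hb v h3)).2
      unfold vv at h4
      rw [one_div, Real.log_inv]
      linarith
  choose κ hκ using hκ
  have hκ0 : ∀ v, 0 ≤ κ v := fun v => ge_of_tendsto (hκ v) (hL0.mono fun k h =>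
    div_nonneg Real.posLog_nonneg h.le)
  -- the closeness
  have hcl : ∀ v, 0 < κ v → (∀ᶠ k in (UU : Filter ℕ), w v k ≠ 0) ∧
      Tendsto (fun k => vv b v (w v k) / L k) (UU : Filter ℕ) (𝓝 (κ v)) ∧
      Tendsto (fun k => vv b v (if (g v).1 = true then x k else y k) / L k) (UU : Filter ℕ)
        (𝓝 0) := by
    intro v hv
    have h1 : ∀ᶠ k in (UU : Filter ℕ), κ v / 2 < Real.posLog (1 / av (v.map b) (w v k)) / L k :=
      (hκ v).eventually (lt_mem_nhds (by linarith))
    have h2 : ∀ᶠ k in (UU : Filter ℕ), κ v / 2 * L k < -Real.log (av (v.map b) (w v k)) ∧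
        w v k ≠ 0 ∧ Real.posLog (1 / av (v.map b) (w v k)) = vv b v (w v k) := by
      filter_upwards [h1, hL0] with k h3 h4
      rw [lt_div_iff₀ h4] at h3
      have h5 : 0 < Real.posLog (1 / av (v.map b) (w v k)) :=
        lt_trans (by positivity) h3
      have h6 : w v k ≠ 0 := by
        intro h7
        have h8 : av (v.map b) (w v k) = 0 := by
          rw [h7]
          cases v with
          | none => change |((0 : ℚ) : ℝ)| = 0; simp
          | some v => change ((padicNorm (b v) 0 : ℚ) : ℝ) = 0; simp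
        rw [h8, div_zero, Real.posLog_zero] at h5
        exact lt_irrefl _ h5
      have h7 : Real.posLog (1 / av (v.map b) (w v k)) = vv b v (w v k) := by
        unfold Real.posLog at h5 ⊢
        unfold vv
        rw [one_div, Real.log_inv] at h5 ⊢
        rcases lt_max_iff.1 h5 with h8 | h8
        · exact absurd h8 (lt_irrefl _)
        · exact max_eq_right h8.le
      refine ⟨?_, h6, h7⟩
      rw [h7] at h3
      exact h3
    refine ⟨h2.mono fun k h => h.2.1, (hκ v).congr' (h2.mono fun k h => by rw [h.2.2]), ?_⟩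
    -- the absolute value is bounded from both sides
    have hA := av_pos b hb v (hg0 v)
    set A := av (v.map b) (g v).2 with hAdef
    have h3 : Tendsto (fun k => Real.exp (-(κ v / 2 * L k))) (UU : Filter ℕ) (𝓝 0) := by
      have h4 : Tendsto (fun k => Real.exp (-(κ v / 2 * L k))) atTop (𝓝 0) := by
        apply Real.tendsto_exp_neg_atTop_nhds_zero.comp
        exact Tendsto.const_mul_atTop (by positivity) hL
      exact h4.mono_left (Nat.hyperfilter_le_atTop)
    have h4 : ∀ᶠ k in (UU : Filter ℕ), Real.exp (-(κ v / 2 * L k)) < A / 2 :=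
      h3.eventually (gt_mem_nhds (by positivity))
    have h5 : ∀ᶠ k in (UU : Filter ℕ), |vv b v (if (g v).1 = true then x k else y k)| ≤
        |Real.log (A / 2)| + |Real.log (2 * A)| := by
      filter_upwards [h2, h4] with k h6 h7
      have h8 : av (v.map b) (w v k) < A / 2 := by
        refine lt_of_le_of_lt ?_ h7
        have h9 := av_pos b hb v h6.2.1
        rw [← Real.log_le_iff_le_exp h9]
        linarith [h6.1]
      have h9 := av_sub_le b hb v (if (g v).1 = true then x k else y k) (g v).2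
      have h10 : av (v.map b) ((if (g v).1 = true then x k else y k) - (g v).2) =
        av (v.map b) (w v k) := rfl
      rw [h10, ← hAdef, abs_le] at h9
      have h11 : A / 2 ≤ av (v.map b) (if (g v).1 = true then x k else y k) := by linarith [h9.1]
      have h12 : av (v.map b) (if (g v).1 = true then x k else y k) ≤ 2 * A := by
        linarith [h9.2]
      have h13 := Real.log_le_log (by positivity) h11
      have h14 := Real.log_le_log (by linarith) h12
      unfold vv
      rw [abs_neg, abs_le]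
      have h15 := neg_abs_le (Real.log (A / 2))
      have h16 := le_abs_self (Real.log (2 * A))
      have h17 := abs_nonneg (Real.log (A / 2))
      have h18 := abs_nonneg (Real.log (2 * A))
      constructor <;> linarith
    have h6 : Tendsto (fun k => (|Real.log (A / 2)| + |Real.log (2 * A)|) / L k)
        (UU : Filter ℕ) (𝓝 0) := by
      have h7 : Tendsto (fun k => (|Real.log (A / 2)| + |Real.log (2 * A)|) / L k)
        atTop (𝓝 0) := Tendsto.const_div_atTop hL _
      exact h7.mono_left (Nat.hyperfilter_le_atTop)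
    apply squeeze_zero_norm' _ h6
    filter_upwards [h5, hL0] with k h7 h8
    rw [Real.norm_eq_abs, abs_div, abs_of_pos h8]
    exact div_le_div_of_nonneg_right h7 h8.le
  -- the inequality for the weights
  have hsumκ : Tendsto (fun k => (∑ v : Option (Fin s), Real.posLog
      (1 / av (v.map b) ((if (f k v).1 = true then x k else y k) - (f k v).2))) / L k)
      (UU : Filter ℕ) (𝓝 (∑ v, κ v)) := by
    have h1 := tendsto_finsetSum (Finset.univ : Finset (Option (Fin s))) fun v _ => hκ v
    refine h1.congr' ?_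
    have h2 : ∀ᶠ k in (UU : Filter ℕ), ∀ v, f k v = g v := eventually_all.2 hg
    filter_upwards [h2] with k h3
    rw [Finset.sum_div]
    refine Finset.sum_congr rfl fun v _ => ?_
    rw [h3 v]
  have hmain : Y * Y' / (Y + Y') < ∑ v, κ v := by
    rcases (add_nonneg hY0 hY'0).eq_or_lt with h | h
    · rw [← h, div_zero]
      have h1 : ε ≤ ∑ v, κ v := by
        refine ge_of_tendsto hsumκ ?_
        filter_upwards [hL0] with k h2
        rw [le_div_iff₀ h2]
        have h3 := (hviol k).le
        have h4 : 0 ≤ cf S (x k).num.natAbs * cf S (y k).num.natAbs /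
            (cf S (x k).num.natAbs + cf S (y k).num.natAbs) :=
          div_nonneg (mul_nonneg (cf_nonneg b hb hbi _) (cf_nonneg b hb hbi _))
            (add_nonneg (cf_nonneg b hb hbi _) (cf_nonneg b hb hbi _))
        linarith
      linarith
    · have h1 := ((hNx.mul hNy).div (hNx.add hNy) h.ne').add_const ε
      have h2 : Y * Y' / (Y + Y') + ε ≤ ∑ v, κ v := by
        refine le_of_tendsto_of_tendsto h1 hsumκ ?_
        filter_upwards [hL0] with k h2
        rw [le_div_iff₀ h2]
        refine le_trans (le_of_eq ?_) (hviol k).le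
        rw [add_mul]
        congr 1
        change cf S (x k).num.natAbs / L k * (cf S (y k).num.natAbs / L k) /
          (cf S (x k).num.natAbs / L k + cf S (y k).num.natAbs / L k) * L k = _
        set N1 := cf S (x k).num.natAbs
        set N2 := cf S (y k).num.natAbs
        by_cases h3 : N1 + N2 = 0
        · rw [← add_div, h3]
          simp
        · have h4 : L k ≠ 0 := h2.ne'
          field_simp
      linarith
  obtain ⟨a, B, hab⟩ := exists_ab' hY0 hY'0 hmain
  -- the theorem for germs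
  have hev : ∀ R : Polynomial (MvPolynomial (Fin n) ℤ), R ≠ 0 →
      evP (fun i => gm fun k => T k i) (gm x) R ≠ 0 := by
    intro R hR
    rw [evP_gm, gm_ne_zero]
    exact ev_of_atTop (hgen R hR)
  have hrel : gm x * gm y = aeval (fun i => gm fun k => T k i) P := by
    rw [aeval_gm, gm_mul]
    congr 1
    funext k
    exact hxy k
  refine transM (B0 := B0) hL (T := fun i => gm fun k => T k i) (z := gm x) (z' := gm y) hP0 hrel
    τ (fun v => -α v) (fun v => -(α v + β v)) κ hτs
    (fun i v => mem_Sv b hb hBb hL v (hT0 i) (hτ i v)) ?_ ?_ ?_ ?_ ?_ (y := Y) (Θ := Y + Y')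
    (by rw [Finset.sum_neg_distrib]) ?_ hκ0 (fun v => gm fun _ => (g v).2) ?_ ?_ ?_ a B ?_ hev
  · intro v
    rw [neg_neg]
    exact mem_Sv b hb hBb hL v hx0 (hα v)
  · intro v
    rw [show -α v - -(α v + β v) = β v by ring]
    exact mem_Sv b hb hBb hL v hy0 (hβ v)
  · intro i
    refine mem_Sint b hb hbi hBb hL (C := 1) ?_ (fun ε hε => (hint' ε hε).mono fun k h =>
      (h.1 i).2)
    exact Eventually.of_forall fun k => by rw [one_mul]; exact hTL k i
  · refine mem_Sint b hb hbi hBb hL (C := 1) ?_ (fun ε hε => (hint' ε hε).mono fun k h => h.2.1)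
    exact Eventually.of_forall fun k => by rw [one_mul]; exact hxL k
  · refine mem_Sint b hb hbi hBb hL (C := 1) ?_ (fun ε hε => (hint' ε hε).mono fun k h => h.2.2)
    exact Eventually.of_forall fun k => by rw [one_mul]; exact hyL k
  · rw [Finset.sum_neg_distrib, Finset.sum_add_distrib, hY, hY']
    ring
  · intro v
    refine ⟨(g v).2.num, (g v).2.den, Rat.num_ne_zero.2 (hg0 v),
      by exact_mod_cast (g v).2.den_ne_zero, ?_⟩
    have h1 : (((g v).2.den : ℤ) : GG) = gm (fun _ => ((g v).2.den : ℚ)) := rfl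
    have h2 : (((g v).2.num : ℤ) : GG) = gm (fun _ => ((g v).2.num : ℚ)) := rfl
    rw [h1, h2, gm_mul]
    congr 1
    funext k
    rw [mul_comm]
    exact Rat.mul_den_eq_num _
  · intro v
    rw [gm_neg]
    have h1 : ∀ (ε : ℝ) (c : ℝ), 0 < ε → ∀ᶠ k in (UU : Filter ℕ), c ≤ ε * L k := by
      intro ε c hε
      have h2 : Tendsto (fun k => ε * L k) atTop atTop := Tendsto.const_mul_atTop hε hL
      exact ev_of_atTop (h2.eventually_ge_atTop c)
    refine mem_Sint b hb hbi hBb hL (C := 1) (h1 1 _ one_pos) (fun ε hε => h1 ε _ hε)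
  · intro v hv
    obtain ⟨h1, h2, h3⟩ := hcl v hv
    by_cases hgv : (g v).1 = true
    · left
      rw [hw] at h1 h2
      simp only [if_pos hgv] at h1 h2 h3
      have h4 : α v = 0 := tendsto_nhds_unique (hα v) h3
      refine ⟨by rw [h4, neg_zero], ?_⟩
      rw [gm_sub]
      exact mem_Sv b hb hBb hL v h1 h2
    · right
      rw [hw] at h1 h2
      simp only [if_neg hgv] at h1 h2 h3
      have h4 : β v = 0 := tendsto_nhds_unique (hβ v) h3
      refine ⟨by rw [h4, add_zero], ?_⟩
      rw [gm_sub]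
      exact mem_Sv b hb hBb hL v h1 h2
  · rw [add_sub_cancel_left]
    exact hab

end Pool.Agent.H556.LG
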