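import Mathlib
import Pool.Agent.H556.LG.Seq

/-!
# Almost integral points of the variety `x y = P(T)`
-/

set_option autoImplicit false

namespace Pool.Agent.H556.LG

open Filter Topology MvPolynomial

lemma finite_ht (H : ℝ) : {q : ℚ | ht q ≤ H}.Finite := by
  obtain ⟨N, hN⟩ := exists_nat_gt (Real.exp H)
  have h1 : {q : ℚ | ht q ≤ H} ⊆ (fun p : ℤ × ℕ => (p.1 : ℚ) / p.2) ''
      ((Set.Icc (-(N : ℤ)) N) ×ˢ (Set.Iic N)) := by
    intro q hq
    have h2 : ((max q.num.natAbs q.den : ℕ) : ℝ) ≤ Real.exp H := by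
      have h3 : (0 : ℝ) < ((max q.num.natAbs q.den : ℕ) : ℝ) := by
        exact_mod_cast lt_of_lt_of_le q.den_pos (le_max_right _ _)
      exact (Real.log_le_iff_le_exp h3).1 hq
    have h3 : max q.num.natAbs q.den ≤ N := by
      have : ((max q.num.natAbs q.den : ℕ) : ℝ) ≤ N := h2.trans hN.le
      exact_mod_cast this
    have h4 := (le_max_left q.num.natAbs q.den).trans h3
    have h5 := (le_max_right q.num.natAbs q.den).trans h3
    refine ⟨(q.num, q.den), ⟨⟨?_, ?_⟩, h5⟩, ?_⟩
    · change -(N : ℤ) ≤ q.num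
      omega
    · change q.num ≤ (N : ℤ)
      omega
    · exact Rat.num_div_den q
  exact ((Set.finite_Icc _ _).prod (Set.finite_Iic _)).image _ |>.subset h1

lemma countable_poly (n : ℕ) : Countable (Polynomial (MvPolynomial (Fin n) ℤ)) := by
  rw [← Cardinal.mk_le_aleph0_iff]
  refine Polynomial.cardinalMk_le_max.trans ?_
  rw [max_le_iff]
  refine ⟨?_, le_rfl⟩
  refine MvPolynomial.cardinalMk_le_max.trans ?_
  simp

lemma evP_mul {n : ℕ} (T : Fin n → ℚ) (z : ℚ) (R R' : Polynomial (MvPolynomial (Fin n) ℤ)) :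
    evP T z (R * R') = evP T z R * evP T z R' := by
  unfold evP
  rw [Polynomial.eval₂_mul]

lemma evP_prod_dvd {n : ℕ} (T : Fin n → ℚ) (z : ℚ) {R R' : Polynomial (MvPolynomial (Fin n) ℤ)}
    (h : R ∣ R') (h' : evP T z R' ≠ 0) : evP T z R ≠ 0 := by
  obtain ⟨Q, rfl⟩ := h
  rw [evP_mul] at h'
  exact left_ne_zero_of_mul h'

/-- **the theorem** -/
theorem near (S : Finset ℕ) (hS : ∀ p ∈ S, p.Prime) {n : ℕ} (P : MvPolynomial (Fin n) ℤ)
    (hP : P ≠ 0) (C : Finset ℚ) (hC : (0 : ℚ) ∉ C) {ε : ℝ} (hε : 0 < ε) :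
    ∃ δ : ℝ, 0 < δ ∧ ∃ R : Polynomial (MvPolynomial (Fin n) ℤ), R ≠ 0 ∧
      ∀ (T : Fin n → ℚ) (x y : ℚ), x * y = aeval T P → evP T x R ≠ 0 →
      (∀ i, cf S (T i).num.natAbs ≤ δ * (ht x + ht y + ∑ i, ht (T i)) ∧
        cf S (T i).den ≤ δ * (ht x + ht y + ∑ i, ht (T i))) →
      cf S x.den ≤ δ * (ht x + ht y + ∑ i, ht (T i)) →
      cf S y.den ≤ δ * (ht x + ht y + ∑ i, ht (T i)) →
      ∀ f : Option ℕ → Bool × ℚ, (∀ v, (f v).2 ∈ C) →
        ∑ v ∈ Finset.insertNone S, Real.posLog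
          (1 / av v ((if (f v).1 = true then x else y) - (f v).2)) ≤
        cf S x.num.natAbs * cf S y.num.natAbs / (cf S x.num.natAbs + cf S y.num.natAbs) +
          ε * (ht x + ht y + ∑ i, ht (T i)) := by
  classical
  by_contra hcon
  push Not at hcon
  have hcount := countable_poly n
  have hne : Nonempty {R : Polynomial (MvPolynomial (Fin n) ℤ) // R ≠ 0} := ⟨⟨1, one_ne_zero⟩⟩
  obtain ⟨e, he⟩ := exists_surjective_nat {R : Polynomial (MvPolynomial (Fin n) ℤ) // R ≠ 0}
  set Rk : ℕ → Polynomial (MvPolynomial (Fin n) ℤ) := fun k =>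
    ∏ j ∈ Finset.range (k + 1), (e j : Polynomial (MvPolynomial (Fin n) ℤ)) with hRk
  have hRk0 : ∀ k, Rk k ≠ 0 := fun k => Finset.prod_ne_zero_iff.2 fun j _ => (e j).2
  have hdvd : ∀ j k, j ≤ k → (e j : Polynomial (MvPolynomial (Fin n) ℤ)) ∣ Rk k := by
    intro j k hjk
    exact Finset.dvd_prod_of_mem (fun j => (e j : Polynomial (MvPolynomial (Fin n) ℤ)))
      (Finset.mem_range.2 (by omega))
  choose T x y hxy hR hTi hxd hyd f hf hviol using fun k : ℕ =>
    hcon (1 / ((k : ℝ) + 1)) (by positivity) (Rk k) (hRk0 k)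
  set L : ℕ → ℝ := fun k => ht (x k) + ht (y k) + ∑ i, ht (T k i) with hL
  have hgen : ∀ R : Polynomial (MvPolynomial (Fin n) ℤ), R ≠ 0 →
      ∀ᶠ k in atTop, evP (T k) (x k) R ≠ 0 := by
    intro R hR0
    obtain ⟨j, hj⟩ := he ⟨R, hR0⟩
    filter_upwards [eventually_ge_atTop j] with k hk
    have h1 := hdvd j k hk
    rw [hj] at h1
    exact evP_prod_dvd _ _ h1 (hR k)
  have hLtop : Tendsto L atTop atTop := by
    rw [tendsto_atTop]
    intro H
    have h1 : ∀ q ∈ {q : ℚ | ht q ≤ H}, ∀ᶠ k in atTop, x k ≠ q := by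
      intro q _
      have h2 := hgen (Polynomial.C (MvPolynomial.C (q.den : ℤ)) * Polynomial.X -
        Polynomial.C (MvPolynomial.C q.num)) (by
          intro h
          have h3 := congrArg (fun Q : Polynomial (MvPolynomial (Fin n) ℤ) => Q.coeff 1) h
          simp only [Polynomial.coeff_sub, Polynomial.coeff_C_mul, Polynomial.coeff_X_one,
            mul_one, Polynomial.coeff_C, one_ne_zero, if_false, sub_zero,
            Polynomial.coeff_zero] at h3
          have h4 : (q.den : ℤ) = 0 := by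
            have := (C_injective (Fin n) ℤ) (h3.trans (C_0).symm)
            exact this
          exact q.den_ne_zero (by exact_mod_cast h4))
      filter_upwards [h2] with k hk h
      apply hk
      unfold evP
      rw [Polynomial.eval₂_sub, Polynomial.eval₂_mul, Polynomial.eval₂_C, Polynomial.eval₂_C,
        Polynomial.eval₂_X, h]
      have e1 : (eval₂Hom (Int.castRingHom ℚ) (T k)) (MvPolynomial.C (q.den : ℤ)) = (q.den : ℚ) := by
        rw [eval₂Hom_C]; simp
      have e2 : (eval₂Hom (Int.castRingHom ℚ) (T k)) (MvPolynomial.C q.num) = (q.num : ℚ) := by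
        rw [eval₂Hom_C]; simp
      rw [e1, e2, mul_comm, Rat.mul_den_eq_num, sub_self]
    have h2 : ∀ᶠ k in atTop, ∀ q ∈ {q : ℚ | ht q ≤ H}, x k ≠ q :=
      (finite_ht H).eventually_all.2 h1
    filter_upwards [h2] with k hk
    have h3 : H < ht (x k) := by
      by_contra h
      exact hk (x k) (not_lt.1 h) rfl
    have h4 := ht_nonneg (y k)
    have h5 : 0 ≤ ∑ i, ht (T k i) := Finset.sum_nonneg fun i _ => ht_nonneg _
    rw [hL]
    simp only []
    linarith
  -- the primes
  set b : Fin S.card → ℕ := fun v => (S.equivFin.symm v : ℕ) with hb0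
  have hb : ∀ v, (b v).Prime := fun v => hS _ (S.equivFin.symm v).2
  have hbi : Function.Injective b := fun v w h => S.equivFin.symm.injective (Subtype.ext h)
  have hbS : Finset.univ.image b = S := by
    ext p
    simp only [Finset.mem_image, Finset.mem_univ, true_and]
    constructor
    · rintro ⟨v, rfl⟩
      exact (S.equivFin.symm v).2
    · intro hp
      exact ⟨S.equivFin ⟨p, hp⟩, by rw [hb0]; simp⟩
  have hsum : ∀ F : Option ℕ → ℝ, ∑ v ∈ Finset.insertNone S, F v =
      ∑ v : Option (Fin S.card), F (v.map b) := by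
    intro F
    rw [Finset.sum_insertNone, Fintype.sum_option]
    congr 1
    conv_lhs => rw [← hbS, Finset.sum_image (fun i _ j _ h => hbi h)]
    rfl
  refine coreLG b hb hbi hP C hC T x y L (fun k => rfl) hLtop hgen hxy ?_
    (fun k v => f k (v.map b)) (fun k v => hf k _) hε ?_
  · intro ε' hε'
    rw [hbS]
    obtain ⟨N, hN⟩ := exists_nat_gt (1 / ε')
    filter_upwards [eventually_ge_atTop N, hLtop.eventually_ge_atTop 0] with k hk hk0
    have h1 : 1 / ((k : ℝ) + 1) ≤ ε' := by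
      rw [div_le_iff₀ (by positivity)]
      rw [div_lt_iff₀ hε'] at hN
      have : (N : ℝ) ≤ k := by exact_mod_cast hk
      nlinarith
    have h2 : 1 / ((k : ℝ) + 1) * L k ≤ ε' * L k := mul_le_mul_of_nonneg_right h1 hk0
    exact ⟨fun i => ⟨(hTi k i).1.trans h2, (hTi k i).2.trans h2⟩, (hxd k).trans h2,
      (hyd k).trans h2⟩
  · intro k
    rw [hbS]
    have := hviol k
    rw [hsum] at this
    exact this

end Pool.Agent.H556.LG
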