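import Mathlib
import Pool.Agent.H556.LG.Fin

/-!
# The product of two lines, the curve `x y = 1` and the lines at infinity
-/

set_option autoImplicit false

namespace Pool.Agent.H556.LG

open Filter Topology MvPolynomial

/-! ### prime-to-`S` parts -/

lemma cf_mul {S : Finset ℕ} (hS : ∀ p ∈ S, p.Prime) {m k : ℕ} (hm : m ≠ 0) (hk : k ≠ 0) :
    cf S (m * k) = cf S m + cf S k := by
  unfold cf
  push_cast
  rw [Real.log_mul (by exact_mod_cast hm) (by exact_mod_cast hk)]
  have : ∑ p ∈ S, (padicValNat p (m * k) : ℝ) * Real.log p =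
      ∑ p ∈ S, (padicValNat p m : ℝ) * Real.log p + ∑ p ∈ S, (padicValNat p k : ℝ) * Real.log p := by
    rw [← Finset.sum_add_distrib]
    refine Finset.sum_congr rfl fun p hp => ?_
    have : Fact p.Prime := ⟨hS p hp⟩
    rw [padicValNat.mul hm hk]
    push_cast
    ring
  rw [this]
  ring

lemma exists_enum {S : Finset ℕ} (hS : ∀ p ∈ S, p.Prime) : ∃ b : Fin S.card → ℕ,
    (∀ v, (b v).Prime) ∧ Function.Injective b ∧ Finset.univ.image b = S := by
  classical
  refine ⟨fun v => (S.equivFin.symm v : ℕ), fun v => hS _ (S.equivFin.symm v).2,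
    fun v w h => S.equivFin.symm.injective (Subtype.ext h), ?_⟩
  ext p
  simp only [Finset.mem_image, Finset.mem_univ, true_and]
  constructor
  · rintro ⟨v, rfl⟩
    exact (S.equivFin.symm v).2
  · intro hp
    exact ⟨S.equivFin ⟨p, hp⟩, by simp⟩

lemma cf_nonneg' {S : Finset ℕ} (hS : ∀ p ∈ S, p.Prime) (m : ℕ) : 0 ≤ cf S m := by
  obtain ⟨b, hb, hbi, h⟩ := exists_enum hS
  rw [← h]
  exact cf_nonneg b hb hbi m

lemma cf_dvd {S : Finset ℕ} (hS : ∀ p ∈ S, p.Prime) {m k : ℕ} (hk : k ≠ 0) (h : m ∣ k) :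
    cf S m ≤ cf S k := by
  obtain ⟨d, rfl⟩ := h
  rw [cf_mul hS (left_ne_zero_of_mul hk) (right_ne_zero_of_mul hk)]
  have := cf_nonneg' hS d
  linarith

lemma cf_le_log {S : Finset ℕ} (m : ℕ) : cf S m ≤ Real.log m := by
  unfold cf
  have : 0 ≤ ∑ p ∈ S, (padicValNat p m : ℝ) * Real.log p :=
    Finset.sum_nonneg fun p _ => mul_nonneg (Nat.cast_nonneg _) (Real.log_natCast_nonneg _)
  linarith

lemma cf_den_le {S : Finset ℕ} (hS : ∀ p ∈ S, p.Prime) (x y : ℚ) :
    cf S (x * y - 1).den ≤ cf S x.den + cf S y.den := by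
  rw [← cf_mul hS x.den_ne_zero y.den_ne_zero]
  refine cf_dvd hS (Nat.mul_ne_zero x.den_ne_zero y.den_ne_zero) ?_
  have h1 : (x * y - 1).den = (x * y).den := by
    have := Rat.sub_intCast_den (x * y) 1
    simpa using this
  rw [h1]
  exact Rat.mul_den_dvd x y

/-! ### heights -/

lemma ht_mul_le (x y : ℚ) : ht (x * y) ≤ ht x + ht y := by
  have h1 : x * y = ((x.num * y.num : ℤ) : ℚ) / ((x.den * y.den : ℕ) : ℤ) := by
    conv_lhs => rw [← Rat.num_div_den x, ← Rat.num_div_den y]
    push_cast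
    rw [div_mul_div_comm]
  rw [h1]
  refine (ht_le_of _ _ ?_).trans ?_
  · exact_mod_cast Nat.mul_ne_zero x.den_ne_zero y.den_ne_zero
  set A := max x.num.natAbs x.den with hA
  set C := max y.num.natAbs y.den with hC
  have hA0 : 0 < A := lt_of_lt_of_le x.den_pos (le_max_right _ _)
  have hC0 : 0 < C := lt_of_lt_of_le y.den_pos (le_max_right _ _)
  have h2 : max (x.num * y.num : ℤ).natAbs ((x.den * y.den : ℕ) : ℤ).natAbs ≤ A * C := by
    refine max_le ?_ ?_
    · rw [Int.natAbs_mul]
      exact Nat.mul_le_mul (le_max_left _ _) (le_max_left _ _)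
    · rw [Int.natAbs_natCast]
      exact Nat.mul_le_mul (le_max_right _ _) (le_max_right _ _)
  have h6 : Real.log ((A * C : ℕ) : ℝ) = ht x + ht y := by
    unfold ht
    rw [← hA, ← hC]
    push_cast
    rw [Real.log_mul (by positivity) (by positivity)]
  rw [← h6]
  apply Real.log_le_log
  · have : 0 < ((x.den * y.den : ℕ) : ℤ).natAbs := by
      rw [Int.natAbs_natCast]
      exact Nat.mul_pos x.den_pos y.den_pos
    exact_mod_cast lt_of_lt_of_le this (le_max_right _ _)
  · exact_mod_cast h2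

lemma ht_one : ht 1 = 0 := by
  unfold ht
  simp

lemma ht_inv (x : ℚ) (hx : x ≠ 0) : ht x⁻¹ = ht x := by
  unfold ht
  have h1 : x⁻¹.num.natAbs = x.den := by
    rw [Rat.num_inv, Int.natAbs_mul, Int.natAbs_natCast]
    have h2 : x.num.sign.natAbs = 1 := by
      rw [Int.natAbs_sign]
      simp [hx]
    rw [h2, one_mul]
  have h2 : x⁻¹.den = x.num.natAbs := by
    rw [Rat.den_inv]
    simp [hx]
  rw [h1, h2, max_comm]

lemma num_inv' (x : ℚ) (hx : x ≠ 0) : x⁻¹.num.natAbs = x.den := by
  rw [Rat.num_inv, Int.natAbs_mul, Int.natAbs_natCast]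
  have h2 : x.num.sign.natAbs = 1 := by
    rw [Int.natAbs_sign]
    simp [hx]
  rw [h2, one_mul]

lemma den_inv' (x : ℚ) (hx : x ≠ 0) : x⁻¹.den = x.num.natAbs := by
  rw [Rat.den_inv]
  simp [hx]

/-! ### absolute values -/

section abs_values

variable {S : Finset ℕ}

lemma av_zero (v : Option ℕ) : av v 0 = 0 := by
  cases v with
  | none => change |((0 : ℚ) : ℝ)| = 0; simp
  | some p => change ((padicNorm p 0 : ℚ) : ℝ) = 0; simp

lemma exists_map (hS : ∀ p ∈ S, p.Prime) {v : Option ℕ} (hv : v ∈ Finset.insertNone S) :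
    ∃ (s : ℕ) (b : Fin s → ℕ) (w : Option (Fin s)), (∀ i, (b i).Prime) ∧ v = w.map b := by
  cases v with
  | none => exact ⟨0, fun i => 2, none, fun i => Nat.prime_two, rfl⟩
  | some p =>
    exact ⟨1, fun _ => p, some 0, fun i => hS p (Finset.some_mem_insertNone.1 hv), rfl⟩

lemma av_mul (hS : ∀ p ∈ S, p.Prime) {v : Option ℕ} (hv : v ∈ Finset.insertNone S) (x y : ℚ) :
    av v (x * y) = av v x * av v y := by
  cases v with
  | none =>
    change |((x * y : ℚ) : ℝ)| = |(x : ℝ)| * |(y : ℝ)|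
    push_cast
    exact abs_mul _ _
  | some p =>
    have : Fact p.Prime := ⟨hS p (Finset.some_mem_insertNone.1 hv)⟩
    change ((padicNorm p (x * y) : ℚ) : ℝ) = ((padicNorm p x : ℚ) : ℝ) * ((padicNorm p y : ℚ) : ℝ)
    rw [padicNorm.mul]
    push_cast
    rfl

lemma av_sub_le' (hS : ∀ p ∈ S, p.Prime) {v : Option ℕ} (hv : v ∈ Finset.insertNone S)
    (x y : ℚ) : |av v x - av v y| ≤ av v (x - y) := by
  obtain ⟨s, b, w, hb, rfl⟩ := exists_map hS hv
  exact av_sub_le b hb w x y

lemma av_neg (v : Option ℕ) (x : ℚ) : av v (-x) = av v x := by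
  cases v with
  | none => change |((-x : ℚ) : ℝ)| = |(x : ℝ)|; push_cast; exact abs_neg _
  | some p => change ((padicNorm p (-x) : ℚ) : ℝ) = ((padicNorm p x : ℚ) : ℝ); rw [padicNorm.neg]

lemma av_add_le (hS : ∀ p ∈ S, p.Prime) {v : Option ℕ} (hv : v ∈ Finset.insertNone S)
    (x y : ℚ) : av v (x + y) ≤ av v x + av v y := by
  have h1 := (abs_le.1 (av_sub_le' hS hv (x + y) y)).2
  rw [add_sub_cancel_right] at h1
  linarith

lemma av_pos' (hS : ∀ p ∈ S, p.Prime) {v : Option ℕ} (hv : v ∈ Finset.insertNone S)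
    {x : ℚ} (hx : x ≠ 0) : 0 < av v x := by
  obtain ⟨s, b, w, hb, rfl⟩ := exists_map hS hv
  exact av_pos b hb w hx

/-- the proximity to `0` -/
noncomputable def pr (v : Option ℕ) (x : ℚ) : ℝ := Real.posLog (1 / av v x)

lemma pr_nonneg (v : Option ℕ) (x : ℚ) : 0 ≤ pr v x := Real.posLog_nonneg

lemma pr_zero (v : Option ℕ) : pr v 0 = 0 := by
  unfold pr
  rw [av_zero, div_zero, Real.posLog_zero]

lemma pr_anti (hS : ∀ p ∈ S, p.Prime) {v : Option ℕ} (hv : v ∈ Finset.insertNone S) {x : ℚ}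
    {A : ℝ} (hA : 0 < A) (h : A ≤ av v x) : pr v x ≤ |Real.log A| := by
  unfold pr Real.posLog
  refine max_le (abs_nonneg _) ?_
  rw [one_div, Real.log_inv]
  have h1 := Real.log_le_log hA h
  have := neg_abs_le (Real.log A)
  linarith

lemma pr_le_ht (hS : ∀ p ∈ S, p.Prime) {v : Option ℕ} (hv : v ∈ Finset.insertNone S) (x : ℚ) :
    pr v x ≤ ht x := by
  by_cases hx : x = 0
  · rw [hx, pr_zero]
    exact ht_nonneg _
  · obtain ⟨s, b, w, hb, rfl⟩ := exists_map hS hv
    have h1 := (abs_le.1 (abs_vv_le b hb w hx)).2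
    unfold vv at h1
    unfold pr Real.posLog
    refine max_le (ht_nonneg _) ?_
    rw [one_div, Real.log_inv]
    exact h1

/-- only one point of a finite set is close -/
lemma sum_pr_le (hS : ∀ p ∈ S, p.Prime) (C : Finset ℚ) : ∃ K : ℝ, 0 ≤ K ∧
    ∀ v ∈ Finset.insertNone S, ∀ x : ℚ, ∑ c ∈ C, pr v (x - c) ≤ K ∨
      ∃ c ∈ C, ∑ c ∈ C, pr v (x - c) ≤ pr v (x - c) + K := by
  classical
  set K : ℝ := ∑ v ∈ Finset.insertNone S, ∑ c ∈ C, ∑ c' ∈ C, |Real.log (av v (c - c') / 2)| with hK
  have hK0 : 0 ≤ K := Finset.sum_nonneg fun v _ => Finset.sum_nonneg fun c _ =>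
    Finset.sum_nonneg fun c' _ => abs_nonneg _
  refine ⟨K, hK0, fun v hv x => ?_⟩
  rcases C.eq_empty_or_nonempty with rfl | hne
  · left
    rw [Finset.sum_empty]
    exact hK0
  · right
    obtain ⟨c, hc, hmin⟩ := C.exists_min_image (fun c => av v (x - c)) hne
    refine ⟨c, hc, ?_⟩
    rw [← Finset.add_sum_erase _ _ hc]
    have h1 : ∑ c' ∈ C.erase c, pr v (x - c') ≤
        ∑ c' ∈ C, |Real.log (av v (c - c') / 2)| := by
      refine (Finset.sum_le_sum fun c' hc' => ?_).trans (Finset.sum_le_sum_of_subset_of_nonneg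
        (Finset.erase_subset c C) fun _ _ _ => abs_nonneg _)
      obtain ⟨hne', hc'C⟩ := Finset.mem_erase.1 hc'
      have h2 : 0 < av v (c - c') := av_pos' hS hv (sub_ne_zero.2 (Ne.symm hne'))
      refine pr_anti hS hv (by positivity) ?_
      have h3 := av_add_le hS hv (-(x - c)) (x - c')
      rw [show -(x - c) + (x - c') = c - c' by ring, av_neg] at h3
      have h4 := hmin c' hc'C
      linarith
    have h5 : ∑ c' ∈ C, |Real.log (av v (c - c') / 2)| ≤ K := by
      have h6 : ∑ c' ∈ C, |Real.log (av v (c - c') / 2)| ≤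
          ∑ c ∈ C, ∑ c' ∈ C, |Real.log (av v (c - c') / 2)| :=
        Finset.single_le_sum (f := fun c => ∑ c' ∈ C, |Real.log (av v (c - c') / 2)|)
          (fun c _ => Finset.sum_nonneg fun c' _ => abs_nonneg _) hc
      refine h6.trans ?_
      exact Finset.single_le_sum
        (f := fun v => ∑ c ∈ C, ∑ c' ∈ C, |Real.log (av v (c - c') / 2)|)
        (fun v _ => Finset.sum_nonneg fun c _ => Finset.sum_nonneg fun c' _ => abs_nonneg _) hv
    linarith

/-- if `x` is near `c` and `y` near `c'` then `x y - 1` is near `c c' - 1` -/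
lemma min_pr_le (hS : ∀ p ∈ S, p.Prime) (c c' : ℚ) : ∃ K : ℝ, 0 ≤ K ∧
    ∀ v ∈ Finset.insertNone S, ∀ x y : ℚ, x * y ≠ c * c' →
      min (pr v (x - c)) (pr v (y - c')) ≤ pr v (x * y - c * c') + K := by
  set K : ℝ := ∑ v ∈ Finset.insertNone S, |Real.log (av v c + av v c' + 1)| with hK
  have hK0 : 0 ≤ K := Finset.sum_nonneg fun v _ => abs_nonneg _
  refine ⟨K, hK0, fun v hv x y hxy => ?_⟩
  have hKv : |Real.log (av v c + av v c' + 1)| ≤ K :=
    Finset.single_le_sum (f := fun v => |Real.log (av v c + av v c' + 1)|)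
      (fun v _ => abs_nonneg _) hv
  have hnn : 0 ≤ pr v (x * y - c * c') := pr_nonneg _ _
  by_contra hcon
  rw [not_le] at hcon
  have h1 := lt_of_lt_of_le hcon (min_le_left _ _)
  have h2 := lt_of_lt_of_le hcon (min_le_right _ _)
  -- the absolute values are at most one and given by the proximity
  have key : ∀ u : ℚ, 0 < pr v u → av v u = Real.exp (-pr v u) := by
    intro u hu
    have hu0 : u ≠ 0 := by
      rintro rfl
      rw [pr_zero] at hu
      exact lt_irrefl _ hu
    have hp := av_pos' hS hv hu0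
    unfold pr Real.posLog at hu ⊢
    rcases lt_max_iff.1 hu with h | h
    · exact absurd h (lt_irrefl _)
    · rw [max_eq_right h.le, one_div, Real.log_inv, neg_neg, Real.exp_log hp]
  have e1 := key _ (lt_of_le_of_lt (by linarith) h1)
  have e2 := key _ (lt_of_le_of_lt (by linarith) h2)
  set p := pr v (x * y - c * c') with hp
  have f1 : av v (x - c) ≤ Real.exp (-(p + K)) := by
    rw [e1]; exact Real.exp_le_exp.2 (by linarith)
  have f2 : av v (y - c') ≤ Real.exp (-(p + K)) := by
    rw [e2]; exact Real.exp_le_exp.2 (by linarith)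
  have f3 : Real.exp (-(p + K)) ≤ 1 := Real.exp_le_one_iff.2 (by linarith)
  have f4 : av v (x * y - c * c') ≤ av v (x - c) * av v (y - c') + av v (x - c) * av v c' +
      av v c * av v (y - c') := by
    have g1 : x * y - c * c' = ((x - c) * (y - c') + (x - c) * c') + c * (y - c') := by ring
    rw [g1]
    refine (av_add_le hS hv _ _).trans ?_
    rw [av_mul hS hv c]
    have g2 := av_add_le hS hv ((x - c) * (y - c')) ((x - c) * c')
    rw [av_mul hS hv, av_mul hS hv] at g2
    linarith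
  have n1 := av_nonneg v (x - c)
  have n2 := av_nonneg v (y - c')
  have n3 := av_nonneg v c
  have n4 := av_nonneg v c'
  set E := Real.exp (-(p + K)) with hE
  have hE0 : 0 < E := Real.exp_pos _
  have f5 : av v (x * y - c * c') < (av v c + av v c' + 1) * E ∨
      av v (x * y - c * c') ≤ (av v c + av v c' + 1) * E := by
    right
    nlinarith [mul_le_mul f1 f2 n2 hE0.le, mul_le_mul_of_nonneg_right f1 n4,
      mul_le_mul_of_nonneg_left f2 n3]
  have f6 : av v (x * y - c * c') ≤ (av v c + av v c' + 1) * E := by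
    rcases f5 with h | h
    · exact h.le
    · exact h
  have hne : x * y - c * c' ≠ 0 := sub_ne_zero.2 hxy
  have f7 := av_pos' hS hv hne
  have f8 := Real.log_le_log f7 f6
  rw [Real.log_mul (by positivity) (by positivity), hE, Real.log_exp] at f8
  have f9 : -Real.log (av v (x * y - c * c')) ≤ p := by
    rw [hp]
    unfold pr Real.posLog
    rw [one_div, Real.log_inv]
    exact le_max_right _ _
  have f10 := le_abs_self (Real.log (av v c + av v c' + 1))
  -- strictness
  have f11 : Real.log (av v (x * y - c * c')) < Real.log (av v c + av v c' + 1) + -(p + K) := by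
    have g1 : av v (x - c) < E := by
      rw [e1, hE]; exact Real.exp_lt_exp.2 (by linarith)
    have g3 : av v (x * y - c * c') < (av v c + av v c' + 1) * E := by
      have m1 : av v (x - c) * av v (y - c') ≤ av v (x - c) * 1 :=
        mul_le_mul_of_nonneg_left (f2.trans f3) n1
      have m2 := mul_le_mul_of_nonneg_right g1.le n4
      have m3 := mul_le_mul_of_nonneg_left f2 n3
      nlinarith
    have g4 := Real.log_lt_log f7 g3
    rw [Real.log_mul (by positivity) (by positivity), hE, Real.log_exp] at g4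
    exact g4
  linarith

end abs_values

end Pool.Agent.H556.LG
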