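import Mathlib
import Pool.Agent.H556.LG.Plane

/-!
# The inequality on the product of two lines
-/

set_option autoImplicit false

namespace Pool.Agent.H556.LG

open Filter Topology MvPolynomial

/-! ### polynomials -/

/-- a nonzero polynomial does not vanish at some point with nonzero last coordinate -/
lemma exists_ne {n : ℕ} {R : Polynomial (MvPolynomial (Fin n) ℤ)} (hR : R ≠ 0) :
    ∃ (T : Fin n → ℚ) (z : ℚ), z ≠ 0 ∧ evP T z R ≠ 0 := by
  obtain ⟨k, hk⟩ : ∃ k, R.coeff k ≠ 0 := by
    by_contra h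
    push Not at h
    exact hR (Polynomial.ext fun k => by rw [h k, Polynomial.coeff_zero])
  obtain ⟨T, hT⟩ : ∃ T : Fin n → ℚ, eval₂ (Int.castRingHom ℚ) T (R.coeff k) ≠ 0 := by
    by_contra h
    push Not at h
    have h1 : (R.coeff k).map (Int.castRingHom ℚ) = 0 := by
      apply MvPolynomial.funext
      intro T
      rw [eval_map, h T, map_zero]
    exact hk (map_injective (Int.castRingHom ℚ) Int.cast_injective (by rw [h1, map_zero]))
  set Q : Polynomial ℚ := R.map (eval₂Hom (Int.castRingHom ℚ) T) with hQ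
  have hQ0 : Q ≠ 0 := by
    intro h
    have h1 := congrArg (fun q : Polynomial ℚ => q.coeff k) h
    simp only [hQ, Polynomial.coeff_map, Polynomial.coeff_zero] at h1
    exact hT h1
  obtain ⟨z, hz⟩ : ∃ z : ℚ, z ∉ (insert 0 Q.roots.toFinset : Finset ℚ) :=
    Infinite.exists_notMem_finset _
  rw [Finset.mem_insert, not_or, Multiset.mem_toFinset, Polynomial.mem_roots hQ0] at hz
  refine ⟨T, z, hz.1, ?_⟩
  unfold evP
  rw [← Polynomial.eval_map]
  exact hz.2

/-- substituting polynomials -/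
lemma subst_poly {n : ℕ} (F : Fin n → MvPolynomial (Fin 2) ℤ) (Z : MvPolynomial (Fin 2) ℤ)
    (R : Polynomial (MvPolynomial (Fin n) ℤ)) (p : Fin 2 → ℚ) :
    aeval p (R.eval₂ (aeval F : MvPolynomial (Fin n) ℤ →ₐ[ℤ] _).toRingHom Z) =
      evP (fun i => aeval p (F i)) (aeval p Z) R := by
  induction R using Polynomial.induction_on' with
  | add q r hq hr =>
    unfold evP at hq hr ⊢
    rw [Polynomial.eval₂_add, Polynomial.eval₂_add, map_add, hq, hr]
  | monomial m Q =>
    unfold evP
    rw [Polynomial.eval₂_monomial, Polynomial.eval₂_monomial, map_mul, map_pow]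
    congr 1
    have h1 : (aeval F : MvPolynomial (Fin n) ℤ →ₐ[ℤ] _).toRingHom Q = aeval F Q := rfl
    have h2 : (eval₂Hom (Int.castRingHom ℚ) fun i => (aeval p) (F i)) Q =
      aeval (fun i => aeval p (F i)) Q := rfl
    rw [h1, h2]
    have h3 := comp_aeval_apply (R := ℤ) (B := ℚ) F (aeval p) Q
    exact h3

/-- the coordinates `(x, y)` of a point -/
def pt (x y : ℚ) : Fin 2 → ℚ := ![x, y]

lemma aeval_pt0 (x y : ℚ) : aeval (pt x y) (X 0 : MvPolynomial (Fin 2) ℤ) = x := by
  rw [aeval_X]; rfl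

lemma aeval_pt1 (x y : ℚ) : aeval (pt x y) (X 1 : MvPolynomial (Fin 2) ℤ) = y := by
  rw [aeval_X]; rfl

/-- the polynomial `x y - 1` -/
noncomputable def tt : MvPolynomial (Fin 2) ℤ := X 0 * X 1 - 1

lemma aeval_tt (x y : ℚ) : aeval (pt x y) tt = x * y - 1 := by
  unfold tt
  rw [map_sub, map_mul, aeval_pt0, aeval_pt1, map_one]

/-- **the inequality on the product of two lines** -/
theorem plane (S : Finset ℕ) (hS : ∀ p ∈ S, p.Prime) (C C' : Finset ℚ) (hC : (0 : ℚ) ∉ C)
    (hC' : (0 : ℚ) ∉ C') (hCC : ∀ c ∈ C, ∀ c' ∈ C', c * c' ≠ 1) {ε : ℝ} (hε : 0 < ε) :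
    ∃ δ : ℝ, 0 < δ ∧ ∃ R : MvPolynomial (Fin 2) ℤ, R ≠ 0 ∧
      ∀ x y : ℚ, aeval (pt x y) R ≠ 0 →
      cf S x.den ≤ δ * (ht x + ht y) → cf S y.den ≤ δ * (ht x + ht y) →
      cf S (x * y - 1).num.natAbs ≤ δ * (ht x + ht y) →
      ∑ v ∈ Finset.insertNone S, (∑ c ∈ C, pr v (x - c) + ∑ c ∈ C', pr v (y - c)) ≤
        (1 / 4 + ε) * (ht x + ht y) := by
  classical
  -- the constants
  set s : ℝ := ((Finset.insertNone S).card : ℝ) with hs
  have hs0 : 0 < s := by
    rw [hs]
    have : (none : Option ℕ) ∈ Finset.insertNone S := by simp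
    exact_mod_cast Finset.card_pos.2 ⟨none, this⟩
  set ε1 : ℝ := ε / 8 with hε1
  have hε1p : 0 < ε1 := by positivity
  set η : ℝ := min 1 (ε1 / s) with hη
  have hη0 : 0 < η := lt_min one_pos (by positivity)
  have hη1 : η ≤ 1 := min_le_left _ _
  have hηs : s * η ≤ ε1 := by
    have : η ≤ ε1 / s := min_le_right _ _
    rw [le_div_iff₀ hs0] at this
    linarith
  set C1 : Finset ℚ := insert 1 (C ∪ C') with hC1
  have hC10 : (0 : ℚ) ∉ C1 := by
    rw [hC1, Finset.mem_insert, Finset.mem_union, not_or, not_or]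
    exact ⟨by norm_num, hC, hC'⟩
  set Q1 : Finset ℚ := insert 1 ((C ×ˢ C').image fun c => c.1 * c.2 - 1) with hQ1
  have hQ10 : (0 : ℚ) ∉ Q1 := by
    rw [hQ1, Finset.mem_insert, not_or]
    refine ⟨by norm_num, fun h => ?_⟩
    obtain ⟨c, hc, h1⟩ := Finset.mem_image.1 h
    rw [Finset.mem_product] at hc
    exact hCC c.1 hc.1 c.2 hc.2 (by linarith)
  obtain ⟨KC, hKC0, hKC⟩ := sum_pr_le hS C
  obtain ⟨KC', hKC'0, hKC'⟩ := sum_pr_le hS C'
  choose Km hKm0 hKm using fun c : ℚ × ℚ => min_pr_le hS c.1 c.2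
  set KM : ℝ := ∑ c ∈ C ×ˢ C', Km c with hKM
  have hKM0 : 0 ≤ KM := Finset.sum_nonneg fun c _ => hKm0 c
  set K : ℝ := KC + KC' + KM with hK
  have hK0 : 0 ≤ K := by positivity
  set hQm : ℝ := ∑ q ∈ Q1, ht q with hhQ
  have hhQ0 : 0 ≤ hQm := Finset.sum_nonneg fun q _ => ht_nonneg _
  -- the two theorems
  have hP1 : (X 0 + 1 : MvPolynomial (Fin 1) ℤ) ≠ 0 := by
    intro h
    have h1 := congrArg (eval (fun _ => (0 : ℤ))) h
    simp at h1
  obtain ⟨δ1, hδ1, R1, hR1, H1⟩ := near S hS (X 0 + 1 : MvPolynomial (Fin 1) ℤ) hP1 C1 hC10 hε1p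
  obtain ⟨δ0, hδ0, R0, hR0, H0⟩ := near S hS (1 : MvPolynomial (Fin 0) ℤ) one_ne_zero Q1 hQ10 hε1p
  -- the bound for small heights
  set Hs : ℝ := (K * s + s * (hQm + 2 * Real.log 2) + 10) / ε1 + 2 with hHs
  have hfin := finite_ht Hs
  set E : Finset ℚ := hfin.toFinset with hE
  -- the polynomial
  set F1 : MvPolynomial (Fin 2) ℤ :=
    R1.eval₂ (aeval (fun _ => tt) : MvPolynomial (Fin 1) ℤ →ₐ[ℤ] _).toRingHom (X 0) with hF1
  set F0 : MvPolynomial (Fin 2) ℤ :=
    R0.eval₂ (aeval (fun _ => tt) : MvPolynomial (Fin 0) ℤ →ₐ[ℤ] _).toRingHom tt with hF0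
  set F2 : MvPolynomial (Fin 2) ℤ := ∏ q ∈ E, (MvPolynomial.C (q.den : ℤ) * X 0 -
    MvPolynomial.C q.num) with hF2
  set F3 : MvPolynomial (Fin 2) ℤ := ∏ q ∈ insert 0 Q1, (MvPolynomial.C (q.den : ℤ) * tt -
    MvPolynomial.C q.num) with hF3
  have hF1e : ∀ x y, aeval (pt x y) F1 = evP (fun _ => x * y - 1) x R1 := by
    intro x y
    rw [hF1, subst_poly]
    simp only [aeval_tt, aeval_pt0]
  have hF0e : ∀ x y, aeval (pt x y) F0 = evP (fun _ => x * y - 1) (x * y - 1) R0 := by
    intro x y
    rw [hF0, subst_poly]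
    simp only [aeval_tt]
  have hF10 : F1 ≠ 0 := by
    obtain ⟨T, z, hz, h1⟩ := exists_ne hR1
    intro h
    apply h1
    have h2 := hF1e z ((T 0 + 1) / z)
    rw [h, map_zero, mul_div_cancel₀ _ hz, add_sub_cancel_right] at h2
    rw [h2]
    congr 1
    funext i
    rw [Subsingleton.elim i 0]
  have hF00 : F0 ≠ 0 := by
    obtain ⟨T, z, hz, h1⟩ := exists_ne hR0
    intro h
    apply h1
    have h2 := hF0e 1 (z + 1)
    rw [h, map_zero, one_mul, add_sub_cancel_right] at h2
    rw [h2]
    congr 1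
    funext i
    exact Fin.elim0 i
  have hF20 : F2 ≠ 0 := by
    rw [hF2, Finset.prod_ne_zero_iff]
    intro q _ h
    have h2 := congrArg (aeval (pt ((q.num + 1) / q.den) 0)) h
    have hd : (q.den : ℚ) ≠ 0 := by exact_mod_cast q.den_ne_zero
    rw [map_sub, map_mul, aeval_pt0, algHom_C, algHom_C, map_zero] at h2
    simp only [eq_intCast, Int.cast_natCast] at h2
    rw [mul_div_cancel₀ _ hd] at h2
    linarith
  have hF30 : F3 ≠ 0 := by
    rw [hF3, Finset.prod_ne_zero_iff]
    intro q _ h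
    have h2 := congrArg (aeval (pt 1 ((q.num + 1) / q.den + 1))) h
    have hd : (q.den : ℚ) ≠ 0 := by exact_mod_cast q.den_ne_zero
    rw [map_sub, map_mul, aeval_tt, algHom_C, algHom_C, map_zero, one_mul,
      add_sub_cancel_right] at h2
    simp only [eq_intCast, Int.cast_natCast] at h2
    rw [mul_div_cancel₀ _ hd] at h2
    linarith
  set δ : ℝ := min (min ε1 (δ1 / 2)) (min (δ0 * η) (δ0 * η / 2)) with hδ
  have hδp : 0 < δ := by
    rw [hδ]
    exact lt_min (lt_min hε1p (half_pos hδ1)) (lt_min (mul_pos hδ0 hη0)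
      (half_pos (mul_pos hδ0 hη0)))
  refine ⟨δ, hδp, F1 * F0 * F2 * F3,
    mul_ne_zero (mul_ne_zero (mul_ne_zero hF10 hF00) hF20) hF30, ?_⟩
  intro x y hne hx hy hT
  rw [map_mul, map_mul, map_mul] at hne
  have hne3 := right_ne_zero_of_mul hne
  replace hne := left_ne_zero_of_mul hne
  have hne1 := left_ne_zero_of_mul (left_ne_zero_of_mul hne)
  have hne0 := right_ne_zero_of_mul (left_ne_zero_of_mul hne)
  have hne2 := right_ne_zero_of_mul hne
  rw [hF1e] at hne1
  rw [hF0e] at hne0
  set h : ℝ := ht x + ht y with hh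
  set T : ℚ := x * y - 1 with hTd
  have hhx := ht_nonneg x
  have hhy := ht_nonneg y
  have hh0 : 0 ≤ h := add_nonneg hhx hhy
  have hHh : Hs < h := by
    have h1 : Hs < ht x := by
      by_contra hc
      apply hne2
      rw [hF2, map_prod]
      apply Finset.prod_eq_zero (i := x)
      · rw [hE, Set.Finite.mem_toFinset]
        exact not_lt.1 hc
      · rw [map_sub, map_mul, aeval_pt0, algHom_C, algHom_C]
        simp only [eq_intCast, Int.cast_natCast]
        rw [mul_comm, Rat.mul_den_eq_num, sub_self]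
    linarith
  have hTq : ∀ q ∈ insert 0 Q1, T ≠ q := by
    intro q hq hTq
    apply hne3
    rw [hF3, map_prod]
    apply Finset.prod_eq_zero hq
    rw [map_sub, map_mul, aeval_tt, algHom_C, algHom_C, ← hTd, hTq]
    simp only [eq_intCast, Int.cast_natCast]
    rw [mul_comm, Rat.mul_den_eq_num, sub_self]
  have hT00 : T ≠ 0 := hTq 0 (Finset.mem_insert_self _ _)
  have hlog2 : 0 < Real.log 2 := Real.log_pos (by norm_num)
  have hlog2' : Real.log 2 < 1 := by
    have := Real.log_two_lt_d9
    linarith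
  have hTh : ht T ≤ h + Real.log 2 := by
    have h1 := ht_sub_le (x * y) 1
    rw [ht_one] at h1
    have h2 := ht_mul_le x y
    linarith
  have hT0 := ht_nonneg T
  have hTden : cf S T.den ≤ 2 * (δ * h) := by
    have := cf_den_le hS x y
    linarith
  -- the first inequality
  have I1 : ∀ f : Option ℕ → Bool × ℚ, (∀ v, (f v).2 ∈ C1) →
      ∑ v ∈ Finset.insertNone S, pr v ((if (f v).1 = true then x else y) - (f v).2) ≤
        h / 4 + ε1 * (2 * h + 1) := by
    intro f hf
    have hle : h ≤ ht x + ht y + ∑ _i : Fin 1, ht T := by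
      rw [Finset.sum_const, Finset.card_univ, Fintype.card_fin, one_smul]
      linarith
    have hδh : δ * h ≤ δ1 / 2 * (ht x + ht y + ∑ _i : Fin 1, ht T) := by
      exact mul_le_mul ((min_le_left _ _).trans (min_le_right _ _)) hle hh0 (half_pos hδ1).le
    have hδh' : 0 ≤ δ1 / 2 * (ht x + ht y + ∑ _i : Fin 1, ht T) :=
      mul_nonneg (half_pos hδ1).le (hh0.trans hle)
    have h1 := H1 (fun _ => T) x y (by
        rw [map_add, aeval_X, map_one, hTd]; ring) hne1
      (fun _ => ⟨by linarith, by linarith⟩) (by linarith) (by linarith) f hf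
    refine h1.trans ?_
    rw [Finset.sum_const, Finset.card_univ, Fintype.card_fin, one_smul]
    set N := cf S x.num.natAbs
    set N' := cf S y.num.natAbs
    have hN : N ≤ ht x := (cf_le_log _).trans (log_num_le x)
    have hN' : N' ≤ ht y := (cf_le_log _).trans (log_num_le y)
    have hN0 : 0 ≤ N := cf_nonneg' hS _
    have hN'0 : 0 ≤ N' := cf_nonneg' hS _
    have h2 : N * N' / (N + N') ≤ (N + N') / 4 := by
      rcases (add_nonneg hN0 hN'0).eq_or_lt with h3 | h3
      · rw [← h3]; simp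
      · rw [div_le_iff₀ h3]
        nlinarith [sq_nonneg (N - N')]
    have h3 : ε1 * (ht x + ht y + ht T) ≤ ε1 * (2 * h + 1) := by
      apply mul_le_mul_of_nonneg_left _ hε1p.le
      linarith
    linarith
  -- the second inequality
  have I2 : ∀ q : Option ℕ → ℚ, (∀ v, q v ∈ Q1) →
      ∑ v ∈ Finset.insertNone S, pr v (T - q v) ≤ 3 * ε1 * (h + 1) + s * (hQm + 1) := by
    intro q hq
    have hpos : 0 ≤ s * (hQm + 1) := mul_nonneg hs0.le (by linarith)
    by_cases hcase : ht T ≤ η * h
    · have h1 : ∑ v ∈ Finset.insertNone S, pr v (T - q v) ≤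
          ∑ v ∈ Finset.insertNone S, (η * h + (hQm + 1)) := by
        refine Finset.sum_le_sum fun v hv => ?_
        refine (pr_le_ht hS hv _).trans ((ht_sub_le _ _).trans ?_)
        have h2 : ht (q v) ≤ hQm :=
          Finset.single_le_sum (f := fun q => ht q) (fun _ _ => ht_nonneg _) (hq v)
        linarith
      rw [Finset.sum_const, nsmul_eq_mul] at h1
      rw [← hs, mul_add] at h1
      have h2 : s * (η * h) ≤ ε1 * h := by
        rw [← mul_assoc]
        exact mul_le_mul_of_nonneg_right hηs hh0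
      nlinarith
    · rw [not_le] at hcase
      have e1 : (1 : ℚ) = aeval (fun _ : Fin 0 => T) (1 : MvPolynomial (Fin 0) ℤ) := by
        rw [map_one]
      have e2 : ht T + ht T⁻¹ + ∑ i : Fin 0, ht ((fun _ : Fin 0 => T) i) = 2 * ht T := by
        rw [ht_inv T hT00]
        simp
        ring
      have h3 : δ * h ≤ δ0 * (2 * ht T) := by
        have h4 : δ ≤ δ0 * η := (min_le_right _ _).trans (min_le_left _ _)
        have h5 : δ * h ≤ δ0 * η * h := mul_le_mul_of_nonneg_right h4 hh0
        have h6 : δ0 * (η * h) ≤ δ0 * (2 * ht T) := mul_le_mul_of_nonneg_left (by linarith) hδ0.le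
        linarith
      have h3' : 2 * (δ * h) ≤ δ0 * (2 * ht T) := by
        have h4 : δ ≤ δ0 * η / 2 := (min_le_right _ _).trans (min_le_right _ _)
        have h5 : δ * h ≤ δ0 * η / 2 * h := mul_le_mul_of_nonneg_right h4 hh0
        have h6 : δ0 * (η * h) ≤ δ0 * (2 * ht T) := mul_le_mul_of_nonneg_left (by linarith) hδ0.le
        linarith
      have h7 := H0 (fun _ => T) T T⁻¹ (by rw [mul_inv_cancel₀ hT00]; exact e1) hne0
        (fun i => Fin.elim0 i) (by rw [e2]; linarith)
        (by rw [e2, den_inv' T hT00]; linarith) (fun v => (true, q v)) hq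
      simp only [if_true] at h7
      rw [e2, num_inv' T hT00] at h7
      set N := cf S T.num.natAbs
      set N' := cf S T.den
      have hN0 : 0 ≤ N := cf_nonneg' hS _
      have hN'0 : 0 ≤ N' := cf_nonneg' hS _
      have h8 : N * N' / (N + N') ≤ N := by
        rcases (add_nonneg hN0 hN'0).eq_or_lt with h3 | h3
        · rw [← h3]; simpa using hN0
        · rw [div_le_iff₀ h3]
          nlinarith
      have h9 : N ≤ ε1 * h := hT.trans
        (mul_le_mul_of_nonneg_right ((min_le_left _ _).trans (min_le_left _ _)) hh0)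
      have h10 : ε1 * (2 * ht T) ≤ ε1 * (2 * (h + 1)) := by
        apply mul_le_mul_of_nonneg_left _ hε1p.le
        linarith
      have h11 : ∑ v ∈ Finset.insertNone S, pr v (T - q v) ≤
        N * N' / (N + N') + ε1 * (2 * ht T) := h7
      nlinarith
  -- the choices
  have hch : ∀ v, ∃ f : Bool × ℚ, ∃ q : ℚ, f.2 ∈ C1 ∧ q ∈ Q1 ∧ (v ∈ Finset.insertNone S →
      ∑ c ∈ C, pr v (x - c) + ∑ c ∈ C', pr v (y - c) ≤
        pr v ((if f.1 = true then x else y) - f.2) + pr v (T - q) + K) := by
    intro v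
    have m1 : (1 : ℚ) ∈ C1 := Finset.mem_insert_self _ _
    have m2 : (1 : ℚ) ∈ Q1 := Finset.mem_insert_self _ _
    by_cases hv : v ∈ Finset.insertNone S
    · rcases hKC v hv x with a1 | ⟨c, hc, a1⟩
      · rcases hKC' v hv y with a2 | ⟨c', hc', a2⟩
        · refine ⟨(true, 1), 1, m1, m2, fun _ => ?_⟩
          have := pr_nonneg v ((if (true : Bool) = true then x else y) - 1)
          have := pr_nonneg v (T - 1)
          simp only [] at *
          linarith
        · refine ⟨(false, c'), 1, ?_, m2, fun _ => ?_⟩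
          · exact Finset.mem_insert_of_mem (Finset.mem_union_right _ hc')
          · have := pr_nonneg v (T - 1)
            simp only [Bool.false_eq_true, if_false]
            linarith
      · rcases hKC' v hv y with a2 | ⟨c', hc', a2⟩
        · refine ⟨(true, c), 1, ?_, m2, fun _ => ?_⟩
          · exact Finset.mem_insert_of_mem (Finset.mem_union_left _ hc)
          · have := pr_nonneg v (T - 1)
            simp only [if_true]
            linarith
        · have hcc : (c, c') ∈ C ×ˢ C' := Finset.mem_product.2 ⟨hc, hc'⟩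
          have hq : c * c' - 1 ∈ Q1 :=
            Finset.mem_insert_of_mem (Finset.mem_image.2 ⟨(c, c'), hcc, rfl⟩)
          have hxy : x * y ≠ c * c' := by
            intro h
            apply hTq _ (Finset.mem_insert_of_mem hq)
            rw [hTd, h]
          have a3 := hKm (c, c') v hv x y hxy
          simp only [] at a3
          have a4 : Km (c, c') ≤ KM := Finset.single_le_sum (f := fun c => Km c)
            (fun c _ => hKm0 c) hcc
          have a5 : x * y - c * c' = T - (c * c' - 1) := by rw [hTd]; ring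
          rw [a5] at a3
          rcases le_total (pr v (x - c)) (pr v (y - c')) with a6 | a6
          · rw [min_eq_left a6] at a3
            refine ⟨(false, c'), c * c' - 1, ?_, hq, fun _ => ?_⟩
            · exact Finset.mem_insert_of_mem (Finset.mem_union_right _ hc')
            · simp only [Bool.false_eq_true, if_false]
              linarith
          · rw [min_eq_right a6] at a3
            refine ⟨(true, c), c * c' - 1, ?_, hq, fun _ => ?_⟩
            · exact Finset.mem_insert_of_mem (Finset.mem_union_left _ hc)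
            · simp only [if_true]
              linarith
    · exact ⟨(true, 1), 1, m1, m2, fun h => absurd h hv⟩
  choose f q hf hq hfq using hch
  have b1 : ∑ v ∈ Finset.insertNone S, (∑ c ∈ C, pr v (x - c) + ∑ c ∈ C', pr v (y - c)) ≤
      ∑ v ∈ Finset.insertNone S, (pr v ((if (f v).1 = true then x else y) - (f v).2) +
        pr v (T - q v) + K) := Finset.sum_le_sum fun v hv => hfq v hv
  have b1' : ∑ v ∈ Finset.insertNone S, (pr v ((if (f v).1 = true then x else y) - (f v).2) +
        pr v (T - q v) + K) = ∑ v ∈ Finset.insertNone S,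
        pr v ((if (f v).1 = true then x else y) - (f v).2) +
        ∑ v ∈ Finset.insertNone S, pr v (T - q v) + s * K := by
    rw [Finset.sum_add_distrib, Finset.sum_add_distrib, Finset.sum_const, nsmul_eq_mul, ← hs]
  rw [b1'] at b1
  have b2 := I1 f hf
  have b3 := I2 q hq
  have b4 : (K * s + s * (hQm + 2 * Real.log 2) + 10) + 2 * ε1 < ε1 * h := by
    have b5 : Hs * ε1 < h * ε1 := mul_lt_mul_of_pos_right hHh hε1p
    rw [hHs, add_mul, div_mul_cancel₀ _ hε1p.ne'] at b5
    linarith
  have b6 : 1 / 2 ≤ Real.log 2 := by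
    have := Real.log_two_gt_d9
    linarith
  have b7 : s * (hQm + 1) ≤ s * (hQm + 2 * Real.log 2) :=
    mul_le_mul_of_nonneg_left (by linarith) hs0.le
  have b8 : ε = 8 * ε1 := by rw [hε1]; ring
  have b9 : 0 ≤ K * s := mul_nonneg hK0 hs0.le
  have b10 : 0 ≤ s * (hQm + 2 * Real.log 2) := mul_nonneg hs0.le (by linarith)
  rw [b8]
  linarith

end Pool.Agent.H556.LG
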